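import Pool.Agent.Lib.MP_b5021c_nt.IfaceS2a

/-!
# Board b5, row T_NV1 (helper96): numerical steps in class `V`
-/

namespace Pool.Agent.B5.H96

open Pool.Agent.B5

/-- (NV1) -/
theorem t_nv1 : Nv1S := by
  intro N hN
  have hs1 : (1 : ℝ) < Real.sqrt 3 := by
    rw [show (1 : ℝ) = Real.sqrt 1 by simp]
    exact Real.sqrt_lt_sqrt (by norm_num) (by norm_num)
  have hN2 : (3 / 2 : ℝ) ≤ N := by
    have : (3 / 2 : ℝ) ≤ Real.sqrt 3 := by
      apply Real.le_sqrt_of_sq_le
      norm_num
    linarith
  have hN0 : 0 < N := by linarith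
  have hb : ∀ x : ℝ, 1 ≤ x → bVS x = 2 * x + 100 * Real.log x := by
    intro x hx
    rw [bVS, max_eq_right hx]
  refine ⟨?_, ?_⟩
  · intro N' hN' h
    have h1 : 1 < N' := lt_of_lt_of_le hs1 hN'
    have h0 : 0 < N' := by linarith
    rw [hb N (by linarith), hb N' h1.le]
    -- `N' ≤ N`
    have hle : N' ≤ N := by
      apply le_of_sq_le_sq _ hN0.le
      linarith
    -- `(N - N') (2 N) ≥ N - 1`
    have h2 : N - 1 ≤ (N - N') * (2 * N) := by
      have h3 : N - 1 ≤ (N - N') * (N + N') := by ring_nf; linarith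
      have h4 : (N - N') * (N + N') ≤ (N - N') * (2 * N) :=
        mul_le_mul_of_nonneg_left (by linarith) (by linarith)
      linarith
    -- the logarithm
    have h5 : Real.log (N' / N) ≤ N' / N - 1 := Real.log_le_sub_one_of_pos (by positivity)
    rw [Real.log_div h0.ne' hN0.ne'] at h5
    have h6 : 1 ≤ (N - N') * (2 + 100 / N) := by
      have h7 : (N - 1) / (2 * N) ≤ N - N' := by
        rw [div_le_iff₀ (by linarith)]
        exact h2
      have h8 : (N - 1) / (2 * N) * (2 + 100 / N) ≤ (N - N') * (2 + 100 / N) :=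
        mul_le_mul_of_nonneg_right h7 (by positivity)
      have h9 : (N - 1) / (2 * N) * (2 + 100 / N) = 1 + (49 * N - 50) / N ^ 2 := by
        field_simp
        ring
      have h10 : 0 ≤ (49 * N - 50) / N ^ 2 := div_nonneg (by linarith) (by positivity)
      linarith
    have h11 : (N - N') * (2 + 100 / N) = 2 * (N - N') + 100 * (1 - N' / N) := by
      field_simp
    linarith
  · intro N' r hN' hr h
    have h1 : 1 < N' := lt_of_lt_of_le hs1 hN'
    have h0 : 0 < N' := by linarith
    rw [hb N (by linarith), hb N' h1.le]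
    have hr0 : 0 < 1 / N := by positivity
    -- `log N' ≤ log N - r`
    have h2 : Real.log N' ≤ Real.log N - r := by
      have := Real.log_le_log h0 h
      rw [Real.log_mul hN0.ne' (Real.exp_pos _).ne', Real.log_exp] at this
      linarith
    -- `exp (-r) ≤ N / (N + 1)`
    have h3 : Real.exp (-r) ≤ N / (N + 1) := by
      have h4 : 1 + 1 / N ≤ Real.exp r := by
        have := Real.add_one_le_exp r
        linarith
      rw [Real.exp_neg, inv_le_comm₀ (Real.exp_pos _) (by positivity), inv_div]
      have : (N + 1) / N = 1 + 1 / N := by field_simp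
      linarith
    have h5 : N' ≤ N * (N / (N + 1)) := h.trans (mul_le_mul_of_nonneg_left h3 hN0.le)
    have h6 : N * (N / (N + 1)) = N - 1 + 1 / (N + 1) := by
      field_simp
      ring
    have h7 : 1 / (N + 1) ≤ 1 / N := one_div_le_one_div_of_le hN0 (by linarith)
    linarith

end Pool.Agent.B5.H96
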