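import Pool.Agent.Lib.MP_b5021c_nt.IfaceE3

/-!
# Board b5, stage 3, row E3_PC: homotopy and the number of zeros
-/

namespace Pool.Agent.B5.H96

open Polynomial
open Pool.Agent.MP_b5021c_nt (nz ZcoS)

theorem e3pc (hZ : ZcoS) (hP : PCZS) : Pc3S := by
  intro q F hq hqn hF
  -- values of the homotopy
  have hre : ∀ (t : ℝ), 0 ≤ t → ∀ z : ℂ, ‖z‖ = 1 → (q + C (t : ℂ) * F).eval z ≠ 0 := by
    intro t ht z hz h0
    have h1 : ((q + C (t : ℂ) * F).eval z * (starRingEnd ℂ) (q.eval z)).re = 0 := by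
      rw [h0, zero_mul, Complex.zero_re]
    have h2 : ((q + C (t : ℂ) * F).eval z * (starRingEnd ℂ) (q.eval z)).re =
        ‖q.eval z‖ ^ 2 + t * (F.eval z * (starRingEnd ℂ) (q.eval z)).re := by
      rw [eval_add, eval_mul, eval_C, add_mul, Complex.add_re, Complex.mul_conj,
        Complex.normSq_eq_norm_sq, Complex.ofReal_re, mul_assoc, Complex.re_ofReal_mul]
    have h3 : 0 < ‖q.eval z‖ := norm_pos_iff.mpr (hqn z hz)
    have h4 := mul_nonneg ht (hF z hz)
    rw [h2] at h1
    nlinarith [pow_pos h3 2]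
  have hn1 : nz (q + F) = 1 := by
    have h1 := hZ (fun t => q + C (t : ℂ) * F) (max q.natDegree F.natDegree) ?_ ?_ ?_
    · have h2 : q + C ((0 : ℝ) : ℂ) * F = q := by simp
      have h3 : q + C ((1 : ℝ) : ℂ) * F = q + F := by simp
      rw [h2, h3] at h1
      rw [← h1, hq]
    · intro t _
      refine (natDegree_add_le _ _).trans (max_le_max le_rfl ?_)
      exact (natDegree_C_mul_le _ _)
    · intro i
      apply Continuous.continuousOn
      have : (fun t : ℝ => (q + C (t : ℂ) * F).coeff i) =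
          fun t : ℝ => q.coeff i + (t : ℂ) * F.coeff i := by
        funext t
        rw [coeff_add, coeff_C_mul]
      change Continuous (fun t : ℝ => (q + C (t : ℂ) * F).coeff i)
      rw [this]
      exact continuous_const.add (Complex.continuous_ofReal.mul continuous_const)
    · intro t ht z hz
      exact hre t ht.1 z hz
  have hnz : ∀ z : ℂ, ‖z‖ = 1 → (q + F).eval z ≠ 0 := by
    intro z hz
    have := hre 1 zero_le_one z hz
    simpa using this
  refine ⟨hn1, hnz, ?_⟩
  intro hF0
  obtain ⟨a, ha⟩ := Multiset.card_eq_one.mp hn1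
  have h1 := hP a (q + F) (-q) ha hnz ?_ ?_
  · have h2 : q + F + -q = F := by ring
    rw [h2] at h1
    exact h1
  · intro z hz
    rw [eval_neg, norm_neg]
    have h2 : ‖(q + F).eval z‖ ^ 2 =
        ‖q.eval z‖ ^ 2 + 2 * (F.eval z * (starRingEnd ℂ) (q.eval z)).re + ‖F.eval z‖ ^ 2 := by
      rw [eval_add]
      simp only [← Complex.normSq_eq_norm_sq, Complex.normSq_apply, Complex.add_re,
        Complex.add_im, Complex.mul_re, Complex.conj_re, Complex.conj_im]
      ring
    have h3 : ‖q.eval z‖ ^ 2 ≤ ‖(q + F).eval z‖ ^ 2 := by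
      rw [h2]
      nlinarith [hF z hz, sq_nonneg ‖F.eval z‖]
    exact (pow_le_pow_iff_left₀ (norm_nonneg _) (norm_nonneg _) (by norm_num)).mp h3
  · have h2 : q + F + -q = F := by ring
    rw [h2]
    exact hF0

end Pool.Agent.B5.H96
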