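import Pool.Agent.Lib.MP_b5021c_nt.B.H96.E3Unit

/-!
# Board b5, stage 3, row E3_ST: the normal form
-/

namespace Pool.Agent.B5.H96

open scoped LaurentPolynomial
open AddMonoidAlgebra Pool.Agent.B5.H71

set_option linter.unusedSectionVars false

section Gen

variable {O : Type} [CommRing O] [IsDomain O] [IsPrincipalIdealRing O] [Coef O] {L : Type}
  [AddCommGroup L] [Module.Free ℤ L] [Module.Finite ℤ L]

theorem cst_inv_mul (e : (RO O)ˣ) (F : AO O L) :
    (cst ((e⁻¹ : (RO O)ˣ) : RO O) : AO O L) * (cst (e : RO O) * F) = F := by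
  rw [← mul_assoc, ← cst_mul, Units.inv_mul, cst_one, one_mul]

theorem single_cst (a : L) (q : RO O) : (single a q : AO O L) = single a 1 * cst q := by
  rw [cst, single_mul_single, add_zero, one_mul]

/-- A multi-affine element through its part and its closing. -/
theorem dec_cl (k : L →+ ℤ) (S : L) (h : k S = 1) (eta : (RO O)ˣ) (D : AO O L)
    (hD : ∀ a ∈ supp D, k a = 0 ∨ k a = 1) :
    D = em (Ker k) (res (Ker k) D) + single S ((eta⁻¹ : (RO O)ˣ) : RO O) *
      em (Ker k) (cl k S h eta D - res (Ker k) D) := by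
  have hdec := decomp k S h D hD
  have hV : cl k S h eta D = res (Ker k) D +
      cst (eta : RO O) * res (Ker k) (single (-S) 1 * D) := by
    conv_lhs => rw [hdec]
    rw [map_add, map_mul, cl_em, cl_em, cl_single, prj_self, h, zpow_one, one_mul]
    rfl
  have h1 : em (Ker k) (cl k S h eta D - res (Ker k) D) =
      cst (eta : RO O) * em (Ker k) (res (Ker k) (single (-S) 1 * D)) := by
    rw [hV, add_sub_cancel_left, map_mul, em_cst]
  rw [h1, single_cst, mul_assoc, cst_inv_mul]
  exact hdec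

theorem cl_coeff_zero (k : L →+ ℤ) (S : L) (h : k S = 1) (eta : (RO O)ˣ) (D : AO O L)
    (hD : ∀ a ∈ supp D, k a = 0 ∨ k a = 1) :
    (cl k S h eta D).coeff 0 = D.coeff 0 + (eta : RO O) * D.coeff S := by
  have hdec := decomp k S h D hD
  have hV : cl k S h eta D = res (Ker k) D +
      cst (eta : RO O) * res (Ker k) (single (-S) 1 * D) := by
    conv_lhs => rw [hdec]
    rw [map_add, map_mul, cl_em, cl_em, cl_single, prj_self, h, zpow_one, one_mul]
    rfl
  rw [hV, coeff_add, Finsupp.add_apply, cst_mul_coeff, res_coeff, res_coeff,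
    coeff_single_mul_apply, one_mul, neg_neg]
  have h1 : ((0 : Ker k) : L) = 0 := rfl
  rw [h1, add_zero]

/-- Exponents of a doubly embedded element. -/
theorem z2_em (k : L →+ ℤ) (k' : Ker k →+ ℤ) (k1 : L →+ ℤ) (hk : ∀ a : Ker k, k1 (a : L) = k' a)
    (F : AO O (Ker k')) : Z2 k1 k (em (Ker k) (em (Ker k') F)) := by
  intro a ha
  have h1 : a ∈ Ker k := by
    by_contra h
    exact ha (em_coeff_not _ _ _ h)
  have h2 : (⟨a, h1⟩ : Ker k) ∈ Ker k' := by
    by_contra h
    apply ha
    have h3 := em_coeff (Ker k) (em (Ker k') F) ⟨a, h1⟩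
    rw [em_coeff_not (Ker k') F _ h] at h3
    exact h3
  refine ⟨?_, h1⟩
  have h3 := hk ⟨a, h1⟩
  rw [mem_Ker.mp h2] at h3
  exact h3

theorem em_em_coeff_zero (K : Submodule ℤ L) (K' : Submodule ℤ K) (F : AO O K') :
    (em K (em K' F)).coeff 0 = F.coeff 0 := by
  have h1 := em_coeff K (em K' F) 0
  have h2 := em_coeff K' F 0
  have h3 : ((0 : K) : L) = 0 := rfl
  have h4 : ((0 : K') : K) = 0 := rfl
  rw [h3] at h1
  rw [h4] at h2
  rw [h1, h2]

end Gen

/-- Row E3_ST. -/
theorem e3st (hU : UnitAS) (hEv : EvRS) (hZ : ZfinS) : St3S := by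
  intro O _ _ _ _ P L _ _ _ _ _ phi D S i0 eta h c n G l b j e hj q hq hqg hne
  have hD := hq.fd.cc.dd
  have hSj : phi S j = 0 := (Finset.mem_filter.mp hq.sp.jO).2
  have fr : Fr (co phi j) (co phi i0) (b : L) S := ⟨hq.sp.bj, b.2, hSj, h⟩
  set g : RO O := c * (G l).coeff 0 with hg
  set V' : AO O (Ker (co (phK phi (co phi i0)) j)) := cst g * Uo phi i0 j G l with hV'
  have hb0 : b ≠ 0 := by
    intro h1
    rw [h1, map_zero] at hj
    exact zero_ne_one hj
  -- the product of the other factors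
  have hprod : (∏ i ∈ Finset.univ.erase l, G i) = em (Ker (co (phK phi (co phi i0)) j)) (Uo phi i0 j G l) := by
    rw [Uo, map_prod]
    apply Finset.prod_congr rfl
    intro i hi
    rw [em_res (Ker (co (phK phi (co phi i0)) j)) (G i)]
    intro a ha
    exact hq.sp.other i (Finset.ne_of_mem_erase hi) a ha
  have hV : cl (co phi i0) S h eta D = (1 - single b ((e⁻¹ : (RO O)ˣ) : RO O)) * em (Ker (co (phK phi (co phi i0)) j)) V' := by
    rw [hq.fd.eq, ← Finset.mul_prod_erase Finset.univ G (Finset.mem_univ l), hprod, hV', map_mul,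
      em_cst, hg, cst_mul]
    conv_lhs => rw [hq.sp.eq]
    ring
  have hbinX : ∀ a ∈ supp (res (Ker (co phi i0)) D), (co (phK phi (co phi i0)) j) a = 0 ∨ (co (phK phi (co phi i0)) j) a = 1 := fun a ha =>
    hD.bin (a : L) ha j
  have hX : res (Ker (co phi i0)) D = em (Ker (co (phK phi (co phi i0)) j)) (Xo phi D i0 j) +
      single b ((e⁻¹ : (RO O)ˣ) : RO O) * em (Ker (co (phK phi (co phi i0)) j)) (V' - Xo phi D i0 j) := by
    have h1 := dec_cl (co (phK phi (co phi i0)) j) b hj e (res (Ker (co phi i0)) D) hbinX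
    have h2 : cl (co (phK phi (co phi i0)) j) b hj e (res (Ker (co phi i0)) D) = V' := by
      have := hq.xe
      rw [hqg] at this
      exact this
    rw [h2] at h1
    exact h1
  -- the normal form
  set U : AO O L := em (Ker (co phi i0)) (em (Ker (co (phK phi (co phi i0)) j)) V') with hUd
  set H : AO O L := em (Ker (co phi i0)) (em (Ker (co (phK phi (co phi i0)) j)) (Xo phi D i0 j)) - U with hHd
  have zU : Z2 (co phi j) (co phi i0) U := z2_em (co phi i0) (co (phK phi (co phi i0)) j) (co phi j) (fun _ => rfl) V'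
  have zX : Z2 (co phi j) (co phi i0) (em (Ker (co phi i0)) (em (Ker (co (phK phi (co phi i0)) j)) (Xo phi D i0 j))) :=
    z2_em (co phi i0) (co (phK phi (co phi i0)) j) (co phi j) (fun _ => rfl) _
  have zH : Z2 (co phi j) (co phi i0) H := z2_sub zX zU
  have hD4 : D = four (b : L) S e⁻¹ eta⁻¹ (U + H) (-H) (-H) (H - U) := by
    have h1 := dec_cl (co phi i0) S h eta D (fun a ha => hD.bin a ha i0)
    rw [hV, hX] at h1
    simp only [map_add, map_sub, map_mul, map_one, em_single] at h1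
    conv_lhs => rw [h1]
    rw [four, hHd, hUd]
    ring
  have U0 : U.coeff 0 = D.coeff 0 + (eta : RO O) * D.coeff S := by
    rw [← cl_coeff_zero (co phi i0) S h eta D (fun a ha => hD.bin a ha i0), hV, hUd, em_em_coeff_zero]
    have h1 := em_coeff (Ker (co (phK phi (co phi i0)) j)) V' 0
    have h4 : ((0 : Ker (co (phK phi (co phi i0)) j)) : Ker (co phi i0)) = 0 := rfl
    rw [h4] at h1
    rw [sub_mul, one_mul, coeff_sub, Finsupp.sub_apply, h1, coeff_single_mul_apply,
      em_coeff_not (Ker (co (phK phi (co phi i0)) j)) V', mul_zero, sub_zero]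
    rw [mem_Ker, add_zero, map_neg, hj]
    norm_num
  have XH0 : (U + H).coeff 0 = D.coeff 0 := by
    have h1 : U + H = em (Ker (co phi i0)) (em (Ker (co (phK phi (co phi i0)) j)) (Xo phi D i0 j)) := by rw [hHd]; ring
    rw [h1, em_em_coeff_zero]
    rfl
  have H0 : H.coeff 0 = -((eta : RO O) * D.coeff S) := by
    rw [coeff_add, Finsupp.add_apply, U0] at XH0
    linear_combination XH0
  have hSD : D.coeff S ≠ 0 := hq.fd.cc.ray.1
  have H0n : H.coeff 0 ≠ 0 := by
    rw [H0]
    exact neg_ne_zero.mpr (mul_ne_zero eta.ne_zero hSD)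
  have U0n : U.coeff 0 ≠ 0 := by
    rw [U0]
    exact hq.fd.cc.v0
  -- unitarity
  obtain ⟨a2, c2, hc2, hk1, hk2, hUs, hHs⟩ := unit_parts hU hEv hZ fr e⁻¹ eta⁻¹ U H zU zH D hD4
    hD.st.1 H0n hD.un
  have zneg : ∀ a : L, co phi j a = 0 → (co phi i0) a = 0 → co phi j (-a) = 0 ∧ (co phi i0) (-a) = 0 := by
    intro a h1 h2
    rw [map_neg, map_neg]
    omega
  have eU : rsh (U.coeff (-a2)) = -(U.coeff 0 * c2) := by
    rw [← sharp_coeff', hUs, coeff_neg, Finsupp.neg_apply, coeff_mul_single_apply,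
      add_neg_cancel]
  have eH : rsh (H.coeff (-a2)) = H.coeff 0 * c2 := by
    rw [← sharp_coeff', hHs, coeff_mul_single_apply, add_neg_cancel]
  have tz := zneg a2 hk1 hk2
  -- parts of `D`
  have p0 : ∀ a : L, co phi j a = 0 → (co phi i0) a = 0 → (U + H).coeff a ≠ 0 → Bin phi a := by
    intro a h1 h2 h3
    apply hD.bin a
    change D.coeff a ≠ 0
    rw [hD4, four_c0 fr _ _ (z2_neg zH) (z2_neg zH) (z2_sub zH zU) h1 h2]
    exact h3
  have p1 : ∀ a : L, co phi j a = 0 → (co phi i0) a = 0 → H.coeff a ≠ 0 → Bin phi ((b : L) + a) := by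
    intro a h1 h2 h3
    apply hD.bin
    change D.coeff _ ≠ 0
    rw [hD4, four_c1 fr _ _ (z2_add zU zH) (z2_neg zH) (z2_sub zH zU) h1 h2]
    exact mul_ne_zero (Units.ne_zero _) (by rw [coeff_neg, Finsupp.neg_apply, neg_ne_zero]; exact h3)
  have p2 : ∀ a : L, co phi j a = 0 → (co phi i0) a = 0 → H.coeff a ≠ 0 → Bin phi (S + a) := by
    intro a h1 h2 h3
    apply hD.bin
    change D.coeff _ ≠ 0
    rw [hD4, four_c2 fr _ _ (z2_add zU zH) (z2_neg zH) (z2_sub zH zU) h1 h2]
    exact mul_ne_zero (Units.ne_zero _) (by rw [coeff_neg, Finsupp.neg_apply, neg_ne_zero]; exact h3)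
  have p3 : ∀ a : L, co phi j a = 0 → (co phi i0) a = 0 → (H - U).coeff a ≠ 0 →
      Bin phi ((b : L) + S + a) := by
    intro a h1 h2 h3
    apply hD.bin
    change D.coeff _ ≠ 0
    rw [hD4, four_c3 fr _ _ (z2_add zU zH) (z2_neg zH) (z2_neg zH) h1 h2]
    exact mul_ne_zero (mul_ne_zero (Units.ne_zero _) (Units.ne_zero _)) h3
  have rne : ∀ p : RO O, rsh p ≠ 0 → p ≠ 0 := by
    intro p h1 h2
    rw [h2, map_zero] at h1
    exact h1 rfl
  have hc2' : c2 ≠ 0 := hc2.ne_zero
  have t0 : Bin phi (-a2) := by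
    apply p0 _ tz.1 tz.2
    apply rne
    rw [coeff_add, Finsupp.add_apply, map_add, eU, eH, U0, H0]
    intro h1
    apply hne
    have h2 : (D.coeff 0 + 2 * ((eta : RO O) * D.coeff S)) * c2 = 0 := by
      linear_combination -h1
    exact (mul_eq_zero.mp h2).resolve_right hc2'
  have hHt : H.coeff (-a2) ≠ 0 := by
    apply rne
    rw [eH]
    exact mul_ne_zero H0n hc2'
  have t1 := p1 _ tz.1 tz.2 hHt
  have t2 := p2 _ tz.1 tz.2 hHt
  have t3 : Bin phi ((b : L) + S + -a2) := by
    apply p3 _ tz.1 tz.2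
    apply rne
    rw [coeff_sub, Finsupp.sub_apply, map_sub, eU, eH]
    intro h1
    apply hD.st.1
    rw [← XH0, coeff_add, Finsupp.add_apply]
    have h2 : (U.coeff 0 + H.coeff 0) * c2 = 0 := by linear_combination h1
    exact (mul_eq_zero.mp h2).resolve_right hc2'
  have bS : Bin phi S := hD.bin S hSD
  have hbG : b ∈ supp (G l) := by
    change (G l).coeff b ≠ 0
    rw [hq.sp.eq, cst_mul_coeff, coeff_sub, Finsupp.sub_apply, one_def, coeff_single, coeff_single,
      Finsupp.single_eq_of_ne hb0, Finsupp.single_eq_same, zero_sub]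
    exact mul_ne_zero hq.sp.u0.ne_zero (neg_ne_zero.mpr (Units.ne_zero _))
  have hbO : ∀ i, phi S i = 0 → phi (b : L) i = 0 ∨ phi (b : L) i = 1 := by
    intro i hi
    exact (hq.fd.ww l b hbG).1 i (Finset.mem_filter.mpr ⟨Finset.mem_univ _, hi⟩)
  have dis : ∀ i, phi S i = 0 ∨ phi (b : L) i = 0 := by
    intro i
    have q0 := t0 i
    have q1 := t1 i
    have q2 := t2 i
    have q3 := t3 i
    have q4 := bS i
    simp only [map_add, Pi.add_apply] at q1 q2 q3
    omega
  have bb : Bin phi (b : L) := by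
    intro i
    rcases bS i with h1 | h1
    · exact hbO i h1
    · have := dis i
      omega
  have hS0 : S ≠ 0 := hq.fd.cc.ray.2.1
  have hbL0 : (b : L) ≠ 0 := fun h1 => hb0 (Subtype.ext h1)
  have gen : ∀ a : L, co phi j a = 0 → (co phi i0) a = 0 → (U.coeff a ≠ 0 ∨ H.coeff a ≠ 0) →
      Bin phi a ∧ ∀ i, phi a i = 0 ∨ (phi S i = 0 ∧ phi (b : L) i = 0) := by
    intro a h1 h2 h3
    by_cases h4 : H.coeff a = 0
    · have h5 : U.coeff a ≠ 0 := by
        rcases h3 with h3 | h3
        · exact h3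
        · exact absurd h4 h3
      have r0 := p0 a h1 h2 (by rw [coeff_add, Finsupp.add_apply, h4, add_zero]; exact h5)
      have r3 := p3 a h1 h2 (by
        rw [coeff_sub, Finsupp.sub_apply, h4, zero_sub]; exact neg_ne_zero.mpr h5)
      refine ⟨r0, fun i => ?_⟩
      have q0 := r0 i
      have q3 := r3 i
      have q4 := bS i
      have q5 := bb i
      simp only [map_add, Pi.add_apply] at q3
      omega
    · have r1 := p1 a h1 h2 h4
      have r2 := p2 a h1 h2 h4
      refine ⟨fun i => ?_, fun i => ?_⟩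
      · have q1 := r1 i
        have q2 := r2 i
        have q4 := bS i
        have q5 := bb i
        have q6 := dis i
        simp only [map_add, Pi.add_apply] at q1 q2
        omega
      · have q1 := r1 i
        have q2 := r2 i
        have q4 := bS i
        have q5 := bb i
        have q6 := dis i
        simp only [map_add, Pi.add_apply] at q1 q2
        omega
  refine ⟨U, H, ⟨?_, bS, bb, hS0, hbL0, dis, ?_, ?_, U0n, H0n⟩, U0, H0⟩
  · conv_lhs => rw [hD4]
    rw [four]
    have hxy : (single ((b : L) + S) ((e⁻¹ * eta⁻¹ : (RO O)ˣ) : RO O) : AO O L) =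
        single (b : L) ((e⁻¹ : (RO O)ˣ) : RO O) * single S ((eta⁻¹ : (RO O)ˣ) : RO O) := by
      rw [single_mul_single, Units.val_mul]
    rw [hxy]
    ring
  · intro a ha
    exact gen a (zU a ha).1 (zU a ha).2 (Or.inl ha)
  · intro a ha
    exact gen a (zH a ha).1 (zH a ha).2 (Or.inr ha)

end Pool.Agent.B5.H96
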