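import Pool.Agent.Lib.MP_b5021c_nt.B.H96.E3Val

/-!
# Board b5, stage 3, row E3_SW: the swap
-/

namespace Pool.Agent.B5.H96

open scoped LaurentPolynomial
open AddMonoidAlgebra Pool.Agent.B5.H71

set_option linter.unusedSectionVars false

variable {O : Type} [CommRing O] [IsDomain O] [IsPrincipalIdealRing O] [Coef O]
  {P L : Type} [Fintype P] [DecidableEq P] [AddCommGroup L] [Module.Free ℤ L] [Module.Finite ℤ L]

theorem two_ne_zero_RO : (2 : RO O) ≠ 0 := by
  intro h
  have h1 := congrArg (evR (1 : Circle)) h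
  rw [map_zero, map_ofNat] at h1
  norm_num at h1

/-- The functional `sum of the ports outside S and b`. -/
noncomputable def mOut (phi : L →+ (P → ℤ)) (S b : L) : L →+ ℤ :=
  ∑ i ∈ Finset.univ.filter (fun i => phi S i = 0 ∧ phi b i = 0), co phi i

theorem mOut_apply (phi : L →+ (P → ℤ)) (S b a : L) :
    mOut phi S b a = ∑ i ∈ Finset.univ.filter (fun i => phi S i = 0 ∧ phi b i = 0), phi a i := by
  rw [mOut, AddMonoidHom.finsetSum_apply]
  rfl

theorem mOut_S (phi : L →+ (P → ℤ)) (S b : L) : mOut phi S b S = 0 := by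
  rw [mOut_apply]
  apply Finset.sum_eq_zero
  intro i hi
  exact (Finset.mem_filter.mp hi).2.1

theorem mOut_b (phi : L →+ (P → ℤ)) (S b : L) : mOut phi S b b = 0 := by
  rw [mOut_apply]
  apply Finset.sum_eq_zero
  intro i hi
  exact (Finset.mem_filter.mp hi).2.2

theorem mOut_nn (phi : L →+ (P → ℤ)) (S b a : L) (ha : Bin phi a) : 0 ≤ mOut phi S b a := by
  rw [mOut_apply]
  apply Finset.sum_nonneg
  intro i _
  rcases ha i with h | h <;> rw [h]
  exact zero_le_one

/-- A port of a non-zero binary element. -/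
theorem exists_port (phi : L →+ (P → ℤ)) (hi : Function.Injective phi) (a : L) (ha : Bin phi a)
    (h0 : a ≠ 0) : ∃ i, phi a i = 1 := by
  by_contra hcon
  apply h0
  apply hi
  rw [map_zero]
  funext i
  rcases ha i with h | h
  · exact h
  · exact absurd ⟨i, h⟩ hcon

theorem mOut_pos (phi : L →+ (P → ℤ)) (hi : Function.Injective phi) (S b a : L) (ha : Bin phi a)
    (h1 : ∀ i, phi a i = 0 ∨ (phi S i = 0 ∧ phi b i = 0)) (h0 : a ≠ 0) : 0 < mOut phi S b a := by
  obtain ⟨i, h2⟩ := exists_port phi hi a ha h0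
  rw [mOut_apply]
  have h3 : i ∈ Finset.univ.filter (fun i => phi S i = 0 ∧ phi b i = 0) := by
    rw [Finset.mem_filter]
    refine ⟨Finset.mem_univ _, ?_⟩
    rcases h1 i with h4 | h4
    · omega
    · exact h4
  have h4 : ∀ j ∈ Finset.univ.filter (fun i => phi S i = 0 ∧ phi b i = 0), 0 ≤ phi a j := by
    intro j _
    rcases ha j with h | h <;> rw [h]
    exact zero_le_one
  have h5 := Finset.single_le_sum h4 h3
  rw [h2] at h5
  omega

/-- The elements `F` such that all exponents are binary and avoid `S`, `b`. -/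
def Av (phi : L →+ (P → ℤ)) (S b : L) (F : AO O L) : Prop :=
  ∀ a ∈ supp F, Bin phi a ∧ ∀ i, phi a i = 0 ∨ (phi S i = 0 ∧ phi b i = 0)

theorem av_add {phi : L →+ (P → ℤ)} {S b : L} {F G : AO O L} (hF : Av phi S b F)
    (hG : Av phi S b G) : Av phi S b (F + G) := by
  intro a ha
  by_cases h1 : F.coeff a = 0
  · by_cases h2 : G.coeff a = 0
    · exfalso
      apply ha
      rw [coeff_add, Finsupp.add_apply, h1, h2, add_zero]
    · exact hG a h2
  · exact hF a h1

theorem av_neg {phi : L →+ (P → ℤ)} {S b : L} {F : AO O L} (hF : Av phi S b F) :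
    Av phi S b (-F) := by
  intro a ha
  apply hF a
  intro h
  apply ha
  rw [coeff_neg, Finsupp.neg_apply, h, neg_zero]

theorem av_sub {phi : L →+ (P → ℤ)} {S b : L} {F G : AO O L} (hF : Av phi S b F)
    (hG : Av phi S b G) : Av phi S b (F - G) := by
  rw [sub_eq_add_neg]
  exact av_add hF (av_neg hG)

/-- Frame data of a normal form. -/
structure FrP (phi : L →+ (P → ℤ)) (S b : L) (jb jS : P) : Prop where
  inj : Function.Injective phi
  bS : Bin phi S
  bb : Bin phi b
  dis : ∀ i, phi S i = 0 ∨ phi b i = 0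
  pb : phi b jb = 1
  pS : phi S jS = 1

theorem FrP.fr {phi : L →+ (P → ℤ)} {S b : L} {jb jS : P} (h : FrP phi S b jb jS) :
    Fr (co phi jb) (co phi jS) b S := by
  refine ⟨h.pb, ?_, ?_, h.pS⟩
  · change phi b jS = 0
    have h1 := h.dis jS
    have h2 := h.pS
    omega
  · change phi S jb = 0
    have h1 := h.dis jb
    have h2 := h.pb
    omega

theorem FrP.z2 {phi : L →+ (P → ℤ)} {S b : L} {jb jS : P} (h : FrP phi S b jb jS) {F : AO O L}
    (hF : Av phi S b F) : Z2 (co phi jb) (co phi jS) F := by
  intro a ha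
  have h1 := (hF a ha).2 jb
  have h2 := (hF a ha).2 jS
  have h3 := h.pb
  have h4 := h.pS
  constructor
  · change phi a jb = 0
    omega
  · change phi a jS = 0
    omega

/-- Binary exponents of `four`. -/
theorem FrP.bin {phi : L →+ (P → ℤ)} {S b : L} {jb jS : P} (h : FrP phi S b jb jS)
    {F0 F1 F2 F3 : AO O L} (h0 : Av phi S b F0) (h1 : Av phi S b F1) (h2 : Av phi S b F2)
    (h3 : Av phi S b F3) (x y : (RO O)ˣ) : ∀ a ∈ supp (four b S x y F0 F1 F2 F3), Bin phi a := by
  intro a ha i
  have hd := h.dis i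
  have e1 := h.bb i
  have e2 := h.bS i
  rcases four_supp x y ha with g | ⟨a', g, rfl⟩ | ⟨a', g, rfl⟩ | ⟨a', g, rfl⟩
  · exact (h0 a g).1 i
  · have g1 := (h1 a' g).1 i
    have g2 := (h1 a' g).2 i
    rw [map_add, Pi.add_apply]
    omega
  · have g1 := (h2 a' g).1 i
    have g2 := (h2 a' g).2 i
    rw [map_add, Pi.add_apply]
    omega
  · have g1 := (h3 a' g).1 i
    have g2 := (h3 a' g).2 i
    rw [map_add, map_add, Pi.add_apply, Pi.add_apply]
    omega

/-- Nonnegativity of the three functionals on the exponents of `four`; the sum is positive. -/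
theorem FrP.pos {phi : L →+ (P → ℤ)} {S b : L} {jb jS : P} (h : FrP phi S b jb jS)
    {F0 F1 F2 F3 : AO O L} (h0 : Av phi S b F0) (h1 : Av phi S b F1) (h2 : Av phi S b F2)
    (h3 : Av phi S b F3) (x y : (RO O)ˣ) : ∀ a ∈ supp (four b S x y F0 F1 F2 F3),
      0 ≤ mOut phi S b a ∧ 0 ≤ co phi jb a ∧ 0 ≤ co phi jS a ∧
        (a ≠ 0 → 0 < mOut phi S b a + co phi jb a + co phi jS a) := by
  intro a ha
  have hb := h.bin h0 h1 h2 h3 x y a ha
  have g1 := mOut_nn phi S b a hb
  have g2 : 0 ≤ co phi jb a := by
    change 0 ≤ phi a jb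
    rcases hb jb with h | h <;> rw [h]
    exact zero_le_one
  have g3 : 0 ≤ co phi jS a := by
    change 0 ≤ phi a jS
    rcases hb jS with h | h <;> rw [h]
    exact zero_le_one
  refine ⟨g1, g2, g3, fun hne => ?_⟩
  have fr := h.fr
  rcases four_supp x y ha with g | ⟨a', g, rfl⟩ | ⟨a', g, rfl⟩ | ⟨a', g, rfl⟩
  · have := mOut_pos phi h.inj S b a (h0 a g).1 (h0 a g).2 hne
    omega
  · have g4 := (h.z2 h1 a' g).1
    have : co phi jb (b + a') = 1 := by rw [map_add, fr.b1, g4, add_zero]
    omega
  · have g4 := (h.z2 h2 a' g).2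
    have : co phi jS (S + a') = 1 := by rw [map_add, fr.s2, g4, add_zero]
    omega
  · have g4 := (h.z2 h3 a' g).1
    have : co phi jb (b + S + a') = 1 := by
      rw [map_add, map_add, fr.b1, fr.s1, g4, add_zero, add_zero]
    omega

/-- Row E3_SW. -/
theorem e3sw (hMul : MultiS) (hSt : StSpecS) (hU : UnitAS) (hB4 : B4S) (hEv : EvRS)
    (hZ : ZfinS) (hWW : WWfS) : Sw3S := by
  intro O _ _ _ _ P L _ _ _ _ _ phi D S b eta e U H hD hP hnz
  obtain ⟨jb, hjb⟩ := exists_port phi hD.inj b hP.bb hP.b0
  obtain ⟨jS, hjS⟩ := exists_port phi hD.inj S hP.bS hP.S0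
  have fp : FrP phi S b jb jS := ⟨hD.inj, hP.bS, hP.bb, hP.dis, hjb, hjS⟩
  have fr := fp.fr
  have aU : Av phi S b U := hP.sU
  have aH : Av phi S b H := hP.sH
  have aS := av_add aU aH
  have aS' := av_add aH aU
  have aD := av_sub aU aH
  have aD' := av_sub aH aU
  set x : (RO O)ˣ := e⁻¹ with hx
  set y : (RO O)ˣ := eta⁻¹ with hy
  have hxy : (single (b + S) ((e⁻¹ * eta⁻¹ : (RO O)ˣ) : RO O) : AO O L) =
      single b (x : RO O) * single S (y : RO O) := by
    rw [single_mul_single, hx, hy, Units.val_mul]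
  have hD4 : D = four b S x y (U + H) (-H) (-H) (H - U) := by
    conv_lhs => rw [hP.eq]
    rw [hxy, four]
    ring
  have hD4' : swp S b eta e U H = four b S x y (H + U) (-U) (-U) (U - H) := by
    rw [swp, hxy, four]
    ring
  set D' : AO O L := swp S b eta e U H with hD'
  have zU := fp.z2 aU
  have zH := fp.z2 aH
  have z0 := map_zero (co phi jb)
  have z0' := map_zero (co phi jS)
  -- coefficients
  have c0 : D'.coeff 0 = D.coeff 0 := by
    rw [hD4', four_c0 fr x y (z2_neg zU) (z2_neg zU) (z2_sub zU zH) z0 z0', hD4,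
      four_c0 fr x y (z2_neg zH) (z2_neg zH) (z2_sub zH zU) z0 z0', add_comm]
  have D0 : D.coeff 0 ≠ 0 := hD.st.1
  have D0' : D'.coeff 0 ≠ 0 := by rw [c0]; exact D0
  have cb : ∀ a ∈ supp U, D'.coeff (b + a) = (x : RO O) * -(U.coeff a) := by
    intro a ha
    rw [hD4', four_c1 fr x y (z2_add zH zU) (z2_neg zU) (z2_sub zU zH) (zU a ha).1 (zU a ha).2]
    rfl
  have cS : ∀ a ∈ supp U, D'.coeff (S + a) = (y : RO O) * -(U.coeff a) := by
    intro a ha
    rw [hD4', four_c2 fr x y (z2_add zH zU) (z2_neg zU) (z2_sub zU zH) (zU a ha).1 (zU a ha).2]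
    rfl
  have U0s : (0 : L) ∈ supp U := hP.U0
  have hcb := cb 0 U0s
  have hcS := cS 0 U0s
  rw [add_zero] at hcb hcS
  have hbs : b ∈ supp D' := by
    change D'.coeff b ≠ 0
    rw [hcb]
    exact mul_ne_zero x.ne_zero (neg_ne_zero.mpr hP.U0)
  have hSs : S ∈ supp D' := by
    change D'.coeff S ≠ 0
    rw [hcS]
    exact mul_ne_zero y.ne_zero (neg_ne_zero.mpr hP.U0)
  have hbin : ∀ a ∈ supp D', Bin phi a := by
    rw [hD4']
    exact fp.bin aS' (av_neg aU) (av_neg aU) aD x y
  have hposD' : ∀ a ∈ supp D', 0 ≤ mOut phi S b a ∧ 0 ≤ co phi jb a ∧ 0 ≤ co phi jS a ∧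
        (a ≠ 0 → 0 < mOut phi S b a + co phi jb a + co phi jS a) := by
    rw [hD4']
    exact fp.pos aS' (av_neg aU) (av_neg aU) aD x y
  have hposD : ∀ a ∈ supp D, 0 ≤ mOut phi S b a ∧ 0 ≤ co phi jb a ∧ 0 ≤ co phi jS a ∧
        (a ≠ 0 → 0 < mOut phi S b a + co phi jb a + co phi jS a) := by
    rw [hD4]
    exact fp.pos aS (av_neg aH) (av_neg aH) aD' x y
  -- unitarity
  obtain ⟨a2, c2, hc2, hk1, hk2, hUs, hHs⟩ := unit_parts hU hEv hZ fr x y U H zU zH D hD4 D0
    hP.H0 hD.un
  have hun : Unitary D' := by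
    have hX := inv_mul' (L := L) hEv hZ b x
    have hY := inv_mul' (L := L) hEv hZ S y
    have hku : IsUnit (single a2 c2 : AO O L) := by
      rw [hU O L]
      exact ⟨a2, c2, hc2, rfl⟩
    obtain ⟨k, hk⟩ := hku
    have h1 : sharp D' * (single b (x : RO O) * single S (y : RO O)) =
        -(D' * single a2 c2) := by
      rw [hD4', four]
      simp only [map_add, map_mul, map_neg, map_sub, hUs, hHs]
      linear_combination (U * single a2 c2 * single S (y : RO O) +
        sharp (single S (y : RO O)) * single S (y : RO O) *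
          (-(U * single a2 c2) - H * single a2 c2)) * hX +
        (U * single a2 c2 * single b (x : RO O) + (-(U * single a2 c2) - H * single a2 c2)) * hY
    have hXu : IsUnit (single b (x : RO O) * single S (y : RO O) : AO O L) := by
      apply IsUnit.mul
      · rw [hU O L]; exact ⟨b, x, x.isUnit, rfl⟩
      · rw [hU O L]; exact ⟨S, y, y.isUnit, rfl⟩
    obtain ⟨w, hw⟩ := hXu
    refine ⟨w * (-k⁻¹), ?_⟩
    have h2 : (k : AO O L) * ((k⁻¹ : (AO O L)ˣ) : AO O L) = 1 := Units.mul_inv k
    rw [Units.val_mul, hw, ← mul_assoc, h1, ← hk, Units.val_neg]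
    linear_combination D' * h2
  -- stability
  have hst : Stable D' := by
    refine ⟨D0', mOut phi S b + co phi jb + co phi jS, ?_, ?_⟩
    · intro a ha hne
      exact (hposD' a (Finsupp.mem_support_iff.mp ha)).2.2.2 hne
    · intro z hz u s hs h0
      rw [sl_mv z u (mOut phi S b) D' (fun a ha => ⟨(hposD' a ha).1, (hposD' a ha).2.1,
        (hposD' a ha).2.2.1⟩) s, hD4', mv_four fr z u _ (mOut_b phi S b) (mOut_S phi S b) x y _ _ _ _
        (z2_neg zU) (z2_neg zU) (z2_sub zU zH)
        (fun a ha => mOut_nn phi S b a (av_neg aU a ha).1)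
        (fun a ha => mOut_nn phi S b a (av_neg aU a ha).1)
        (fun a ha => mOut_nn phi S b a (aD a ha).1), map_add, map_neg, map_sub] at h0
      set Us := mv z u ![mOut phi S b, co phi jb, co phi jS] ![s, s, s] U with hUs'
      set Hs := mv z u ![mOut phi S b, co phi jb, co phi jS] ![s, s, s] H with hHs'
      obtain ⟨X, hX⟩ : ∃ X : ℂ, X = evR z (x : RO O) * (u b : ℂ) := ⟨_, rfl⟩
      obtain ⟨Y, hY⟩ : ∃ Y : ℂ, Y = evR z (y : RO O) * (u S : ℂ) := ⟨_, rfl⟩
      have hXn : ‖X‖ = 1 := by
        rw [hX, norm_mul, (hEv O).2.1 z _ x.isUnit, Circle.norm_coe, mul_one]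
      have hYn : ‖Y‖ = 1 := by
        rw [hY, norm_mul, (hEv O).2.1 z _ y.isUnit, Circle.norm_coe, mul_one]
      rw [← hX, ← hY] at h0
      obtain ⟨w, hw1, hw2⟩ := swap_zero Us Hs (X * s) (Y * s)
        (by rw [norm_mul, hXn, one_mul]; exact hs) (by rw [norm_mul, hYn, one_mul]; exact hs)
        (by linear_combination h0)
      -- the value of `D`
      have hX0 : X ≠ 0 := by
        intro h; rw [h, norm_zero] at hXn; exact zero_ne_one hXn
      have hY0 : Y ≠ 0 := by
        intro h; rw [h, norm_zero] at hYn; exact zero_ne_one hYn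
      have hsc := (hSt O L D).1 hD.st z (by rw [← c0]; exact hz)
      have hne := hMul L (spec z D) hsc (Fin 3) ![mOut phi S b, co phi jb, co phi jS]
        (by
          intro i a ha
          have ha' : a ∈ supp D := by
            intro h
            rw [Finsupp.mem_support_iff, spec_coeff, h, map_zero] at ha
            exact ha rfl
          have h1 := hposD a ha'
          fin_cases i
          · exact h1.1
          · exact h1.2.1
          · exact h1.2.2.1)
        (by
          intro a ha hne
          have ha' : a ∈ supp D := by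
            intro h
            rw [Finsupp.mem_support_iff, spec_coeff, h, map_zero] at ha
            exact ha rfl
          rw [Fin.sum_univ_three]
          exact (hposD a ha').2.2.2 hne) u ![s, w / X, w / Y]
        (by
          intro i
          fin_cases i
          · exact hs
          · change ‖w / X‖ < 1
            rw [norm_div, hXn, div_one]; exact hw1
          · change ‖w / Y‖ < 1
            rw [norm_div, hYn, div_one]; exact hw1)
      apply hne
      change mv z u ![mOut phi S b, co phi jb, co phi jS] ![s, w / X, w / Y] D = 0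
      rw [hD4, mv_four fr z u _ (mOut_b phi S b) (mOut_S phi S b) x y _ _ _ _
        (z2_neg zH) (z2_neg zH) (z2_sub zH zU)
        (fun a ha => mOut_nn phi S b a (av_neg aH a ha).1)
        (fun a ha => mOut_nn phi S b a (av_neg aH a ha).1)
        (fun a ha => mOut_nn phi S b a (aD' a ha).1), map_add, map_neg, map_sub,
        mv_z2 z u _ s (w / X) (w / Y) s s U zU, mv_z2 z u _ s (w / X) (w / Y) s s H zH,
        ← hUs', ← hHs', ← hX, ← hY, mul_div_cancel₀ _ hX0, mul_div_cancel₀ _ hY0]
      linear_combination hw2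
  -- rank
  have hspn : rk (supp D') = Module.finrank ℤ L := by
    have hsub : Submodule.span ℤ (supp D) ≤ Submodule.span ℤ (supp D') := by
      have hb' : b ∈ Submodule.span ℤ (supp D') := Submodule.subset_span hbs
      have hS' : S ∈ Submodule.span ℤ (supp D') := Submodule.subset_span hSs
      have hU' : ∀ a ∈ supp U, a ∈ Submodule.span ℤ (supp D') := by
        intro a ha
        have h1 : b + a ∈ supp D' := by
          change D'.coeff (b + a) ≠ 0
          rw [cb a ha]
          exact mul_ne_zero x.ne_zero (neg_ne_zero.mpr ha)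
        have h2 := Submodule.sub_mem _ (Submodule.subset_span h1) hb'
        rwa [add_sub_cancel_left] at h2
      have hH' : ∀ a ∈ supp H, a ∈ Submodule.span ℤ (supp D') := by
        intro a ha
        have ha1 := (zH a ha).1
        have ha2 := (zH a ha).2
        have g0 := four_c0 fr x y (F0 := H + U) (z2_neg zU) (z2_neg zU) (z2_sub zU zH) ha1 ha2
        have g3 := four_c3 fr x y (F3 := U - H) (z2_add zH zU) (z2_neg zU) (z2_neg zU) ha1 ha2
        rw [← hD4', coeff_add, Finsupp.add_apply] at g0
        rw [← hD4', coeff_sub, Finsupp.sub_apply] at g3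
        by_cases h1 : D'.coeff a = 0
        · have h2 : D'.coeff (b + S + a) ≠ 0 := by
            rw [g3]
            apply mul_ne_zero (mul_ne_zero x.ne_zero y.ne_zero)
            intro h4
            rw [h1] at g0
            have h5 : (2 : RO O) * H.coeff a = 0 := by linear_combination -g0 - h4
            exact ha ((mul_eq_zero.mp h5).resolve_left two_ne_zero_RO)
          have h6 := Submodule.sub_mem _ (Submodule.subset_span (R := ℤ) (s := supp D') h2)
            (Submodule.add_mem _ hb' hS')
          rwa [add_sub_cancel_left] at h6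
        · exact Submodule.subset_span h1
      have hFs : ∀ {F G : AO O L} {a : L}, (∀ a ∈ supp F, a ∈ Submodule.span ℤ (supp D')) →
          (∀ a ∈ supp G, a ∈ Submodule.span ℤ (supp D')) → (F.coeff a ≠ 0 ∨ G.coeff a ≠ 0) →
          a ∈ Submodule.span ℤ (supp D') := by
        intro F G a hF hG h
        rcases h with h | h
        · exact hF a h
        · exact hG a h
      rw [Submodule.span_le]
      intro a ha
      rw [hD4] at ha
      rcases four_supp x y ha with g | ⟨a', g, rfl⟩ | ⟨a', g, rfl⟩ | ⟨a', g, rfl⟩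
      · apply hFs hU' hH'
        by_contra hcon
        rw [not_or, not_not, not_not] at hcon
        apply g
        rw [coeff_add, Finsupp.add_apply, hcon.1, hcon.2, add_zero]
      · refine Submodule.add_mem _ hb' (hH' a' ?_)
        intro h
        apply g
        rw [coeff_neg, Finsupp.neg_apply, h, neg_zero]
      · refine Submodule.add_mem _ hS' (hH' a' ?_)
        intro h
        apply g
        rw [coeff_neg, Finsupp.neg_apply, h, neg_zero]
      · refine Submodule.add_mem _ (Submodule.add_mem _ hb' hS') (hFs hU' hH' ?_)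
        by_contra hcon
        rw [not_or, not_not, not_not] at hcon
        apply g
        rw [coeff_sub, Finsupp.sub_apply, hcon.1, hcon.2, sub_zero]
    have h1 : Module.finrank ℤ (Submodule.span ℤ (supp D)) ≤
        Module.finrank ℤ (Submodule.span ℤ (supp D')) := Submodule.finrank_mono hsub
    have h2 : Module.finrank ℤ (Submodule.span ℤ (supp D')) ≤ Module.finrank ℤ L :=
      Submodule.finrank_le _
    have h3 : rk (supp D) = Module.finrank ℤ L := hD.spn
    rw [rk] at h3 ⊢
    omega
  -- rays
  have hrb : Ray D' b := by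
    refine ⟨hbs, hP.b0, mOut phi S b + co phi jS, ?_, ?_⟩
    · change mOut phi S b b + co phi jS b = 0
      rw [mOut_b, fr.b2, add_zero]
    · intro a ha h0 hb
      change 0 < mOut phi S b a + co phi jS a
      obtain ⟨p1, p2, p3, -⟩ := hposD' a ha
      rw [hD4'] at ha
      rcases four_supp x y ha with g | ⟨a', g, rfl⟩ | ⟨a', g, rfl⟩ | ⟨a', g, rfl⟩
      · have := mOut_pos phi hD.inj S b a (aS' a g).1 (aS' a g).2 h0
        omega
      · have h1 : a' ≠ 0 := by
          rintro rfl
          exact hb (add_zero b)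
        have h2 := mOut_pos phi hD.inj S b a' (av_neg aU a' g).1 (av_neg aU a' g).2 h1
        have h3 : mOut phi S b (b + a') = mOut phi S b a' := by rw [map_add, mOut_b, zero_add]
        omega
      · have g4 := (fp.z2 (av_neg aU) a' g).2
        have : co phi jS (S + a') = 1 := by rw [map_add, fr.s2, g4, add_zero]
        omega
      · have g4 := (fp.z2 aD a' g).2
        have : co phi jS (b + S + a') = 1 := by
          rw [map_add, map_add, fr.b2, fr.s2, g4, add_zero, zero_add]
        omega
  have hrS : Ray D' S := by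
    refine ⟨hSs, hP.S0, mOut phi S b + co phi jb, ?_, ?_⟩
    · change mOut phi S b S + co phi jb S = 0
      rw [mOut_S, fr.s1, add_zero]
    · intro a ha h0 hb
      change 0 < mOut phi S b a + co phi jb a
      obtain ⟨p1, p2, p3, -⟩ := hposD' a ha
      rw [hD4'] at ha
      rcases four_supp x y ha with g | ⟨a', g, rfl⟩ | ⟨a', g, rfl⟩ | ⟨a', g, rfl⟩
      · have := mOut_pos phi hD.inj S b a (aS' a g).1 (aS' a g).2 h0
        omega
      · have g4 := (fp.z2 (av_neg aU) a' g).1
        have : co phi jb (b + a') = 1 := by rw [map_add, fr.b1, g4, add_zero]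
        omega
      · have h1 : a' ≠ 0 := by
          rintro rfl
          exact hb (add_zero S)
        have h2 := mOut_pos phi hD.inj S b a' (av_neg aU a' g).1 (av_neg aU a' g).2 h1
        have h3 : mOut phi S b (S + a') = mOut phi S b a' := by rw [map_add, mOut_S, zero_add]
        omega
      · have g4 := (fp.z2 aD a' g).1
        have : co phi jb (b + S + a') = 1 := by
          rw [map_add, map_add, fr.b1, fr.s1, g4, add_zero, add_zero]
        omega
  -- irreducibility
  have hirr : Irreducible D' := by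
    refine ⟨?_, ?_⟩
    · intro h
      obtain ⟨a, c, hc, h1⟩ := (hU O L D').mp h
      have h2 : a = 0 := by
        by_contra h3
        apply D0'
        rw [h1, coeff_single, Finsupp.single_eq_of_ne (Ne.symm h3)]
      have h3 : a = b := by
        by_contra h3
        apply hbs
        rw [h1, coeff_single, Finsupp.single_eq_of_ne (Ne.symm h3)]
      exact hP.b0 (h3.symm.trans h2)
    · intro F G hFG
      obtain ⟨c, hF', hG', -⟩ := hB4 O L D' F G hst hFG
      set F' : AO O L := mon c * F with hF'd
      set G' : AO O L := mon (-c) * G with hG'd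
      have hmm : (mon c : AO O L) * mon (-c) = 1 := by
        rw [mon, mon, single_mul_single, add_neg_cancel, mul_one]
        rfl
      have hFG' : D' = F' * G' := by
        rw [hFG, hF'd, hG'd]
        linear_combination (-(F * G)) * hmm
      have huF : IsUnit F' → IsUnit F := fun h => isUnit_of_mul_isUnit_right h
      have huG : IsUnit G' → IsUnit G := fun h => isUnit_of_mul_isUnit_right h
      have hww1 := hWW O P L phi ∅ Finset.univ F' G' (by
        rw [← hFG']
        intro a ha
        exact ⟨fun j _ => hbin a ha j, Or.inl (by simp), by simp⟩) hF'.1 hG'.1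
      have hww2 := hWW O P L phi ∅ Finset.univ G' F' (by
        rw [mul_comm, ← hFG']
        intro a ha
        exact ⟨fun j _ => hbin a ha j, Or.inl (by simp), by simp⟩) hG'.1 hF'.1
      have bF : ∀ a ∈ supp F', (co phi jb a = 0 ∨ co phi jb a = 1) ∧
          (co phi jS a = 0 ∨ co phi jS a = 1) := fun a ha =>
        ⟨(hww1.1 a ha).1 jb (Finset.mem_univ _), (hww1.1 a ha).1 jS (Finset.mem_univ _)⟩
      have bG : ∀ a ∈ supp G', (co phi jb a = 0 ∨ co phi jb a = 1) ∧
          (co phi jS a = 0 ∨ co phi jS a = 1) := fun a ha =>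
        ⟨(hww2.1 a ha).1 jb (Finset.mem_univ _), (hww2.1 a ha).1 jS (Finset.mem_univ _)⟩
      obtain ⟨F0, F1, F2, F3, zF0, zF1, zF2, zF3, hF4, hFb, hFS⟩ := four_dec fr x y F' bF
      obtain ⟨G0, G1, G2, G3, zG0, zG1, zG2, zG3, hG4, hGb, hGS⟩ := four_dec fr x y G' bG
      have Db : D.coeff b ≠ 0 := by
        have h1 := four_c1 fr x y (F1 := -H) (z2_add zU zH) (z2_neg zH) (z2_sub zH zU) z0 z0'
        rw [add_zero, ← hD4, coeff_neg, Finsupp.neg_apply] at h1
        rw [h1]
        exact mul_ne_zero x.ne_zero (neg_ne_zero.mpr hP.H0)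
      -- a factor without the two ports is a unit
      have core : ∀ A B0 B1 B2 B3 : AO O L, Z2 (co phi jb) (co phi jS) A →
          Z2 (co phi jb) (co phi jS) B0 → Z2 (co phi jb) (co phi jS) B1 →
          Z2 (co phi jb) (co phi jS) B2 → Z2 (co phi jb) (co phi jS) B3 →
          D' = A * four b S x y B0 B1 B2 B3 → IsUnit A := by
        intro A B0 B1 B2 B3 zA zB0 zB1 zB2 zB3 hAB
        rw [mul_comm, four_unit_mul, hD4'] at hAB
        obtain ⟨p0, p1, -, -⟩ := four_inj fr x y (z2_add zH zU) (z2_neg zU) (z2_neg zU)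
          (z2_sub zU zH) (z2_mul zB0 zA) (z2_mul zB1 zA) (z2_mul zB2 zA) (z2_mul zB3 zA) hAB
        have h1 : D = A * four b S x y B0 (-(B0 + B1)) (-(B0 + B1)) (B0 + B1 + B1) := by
          rw [mul_comm, four_unit_mul, hD4]
          have q1 : U + H = B0 * A := by linear_combination p0
          have q2 : -H = -(B0 + B1) * A := by linear_combination -p0 - p1
          have q3 : H - U = (B0 + B1 + B1) * A := by linear_combination p0 + 2 * p1
          rw [q1, q2, q3]
        rcases hD.irr.isUnit_or_isUnit h1 with h2 | h2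
        · exact h2
        · exfalso
          obtain ⟨a, c, hc, h3⟩ := (hU O L _).mp h2
          rw [h3] at h1
          have h4 : ∀ a' : L, D.coeff a' ≠ 0 → co phi jb (a' + -a) = 0 := by
            intro a' ha'
            rw [h1, coeff_mul_single_apply] at ha'
            exact (zA _ (left_ne_zero_of_mul ha')).1
          have h5 := h4 0 D0
          have h6 := h4 b Db
          rw [map_add, z0] at h5
          rw [map_add, fr.b1] at h6
          omega
      rcases hww1.2 jb (Finset.mem_univ _) with h1 | h1 <;>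
        rcases hww1.2 jS (Finset.mem_univ _) with h2 | h2
      · left
        apply huF
        exact core F' G0 G1 G2 G3 (fun a ha => ⟨h1 a ha, h2 a ha⟩) zG0 zG1 zG2 zG3
          (by rw [← hG4]; exact hFG')
      · exfalso
        obtain ⟨r1, r3⟩ := hFb h1
        obtain ⟨s2, s3⟩ := hGS h2
        rw [hF4, hG4, r1, r3, s2, s3] at hFG'
        have h3 : four b S x y F0 0 F2 0 * four b S x y G0 G1 0 0 =
            four b S x y (F0 * G0) (F0 * G1) (F2 * G0) (F2 * G1) := by
          simp only [four]
          ring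
        rw [h3, hD4'] at hFG'
        obtain ⟨p0, p1, p2, p3⟩ := four_inj fr x y (z2_add zH zU) (z2_neg zU) (z2_neg zU)
          (z2_sub zU zH) (z2_mul zF0 zG0) (z2_mul zF0 zG1) (z2_mul zF2 zG0) (z2_mul zF2 zG1) hFG'
        have h4 : H * H = 0 := by
          linear_combination (-(U - H)) * p0 - F0 * G0 * p3 - U * p1 + F0 * G1 * p2
        have h5 : H = 0 := mul_self_eq_zero.mp h4
        exact hP.H0 (by rw [h5]; rfl)
      · exfalso
        obtain ⟨r2, r3⟩ := hFS h2
        obtain ⟨s1, s3⟩ := hGb h1
        rw [hF4, hG4, r2, r3, s1, s3] at hFG'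
        have h3 : four b S x y F0 F1 0 0 * four b S x y G0 0 G2 0 =
            four b S x y (F0 * G0) (F1 * G0) (F0 * G2) (F1 * G2) := by
          simp only [four]
          ring
        rw [h3, hD4'] at hFG'
        obtain ⟨p0, p1, p2, p3⟩ := four_inj fr x y (z2_add zH zU) (z2_neg zU) (z2_neg zU)
          (z2_sub zU zH) (z2_mul zF0 zG0) (z2_mul zF1 zG0) (z2_mul zF0 zG2) (z2_mul zF1 zG2) hFG'
        have h4 : H * H = 0 := by
          linear_combination (-(U - H)) * p0 - F0 * G0 * p3 - U * p1 + F1 * G0 * p2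
        have h5 : H = 0 := mul_self_eq_zero.mp h4
        exact hP.H0 (by rw [h5]; rfl)
      · right
        apply huG
        exact core G' F0 F1 F2 F3 (fun a ha => ⟨h1 a ha, h2 a ha⟩) zF0 zF1 zF2 zF3
          (by rw [← hF4, mul_comm]; exact hFG')
  refine ⟨⟨hD.inj, hbin, hst, hun, hirr, hspn⟩, hrb, hrS, c0, ?_, ?_⟩
  · rw [hcb, hx, ← mul_assoc, Units.mul_inv, one_mul]
  · rw [hcS, hy, ← mul_assoc, Units.mul_inv, one_mul]

end Pool.Agent.B5.H96
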