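import Pool.Agent.Lib.MP_b5021c_nt.IfaceS1
import Pool.Agent.Lib.MP_b5021c_nt.K.H29.Fdc

/-!
# Board b5, row S_SPJ (helper96): the port of a small non-pure factor may be changed
-/

namespace Pool.Agent.B5.H96

open Pool.Agent.B5 AddMonoidAlgebra

/-- (SPJ) -/
theorem s_spj (hW : WWfS) (hM : MinS) (hC : Coeff0S) (hG0 : G0S) : SpjS := by
  classical
  intro O _ _ _ _ P L _ _ _ _ _ phi D S i0 eta h c n G fd l b j e hs j' hj' hb
  obtain ⟨hst, -, -, hww, -, -⟩ := hG0 O P L phi D S i0 eta h fd.cc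
  obtain ⟨hV0, lam, hpos, -⟩ := id hst
  have hfull : ∀ i, FullAt lam (G i) := fun i => fd.full i lam hpos
  have hGpos : ∀ i, Pos lam (G i) := fun i => (hfull i).2.1
  have hGz : ∀ i, (G i).coeff 0 ≠ 0 := fun i => (hfull i).1
  -- the product of a constant and some factors
  have key : ∀ s : Finset (Fin n), (cst c * ∏ i ∈ s, G i).coeff 0 ≠ 0 := by
    intro s
    obtain ⟨e1, p1⟩ := H29.prod_coeff_zero hC G lam hGpos s
    rw [(hC O _ (cst c) (∏ i ∈ s, G i) lam (H29.pos_cst lam c) p1).1, H29.cst_coeff_zero, e1]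
    exact mul_ne_zero fd.c0 (Finset.prod_ne_zero_iff.mpr fun j _ => hGz j)
  -- the exponent `b` of `G l`
  have hb0 : (0 : Ker (co phi i0)) ≠ b := by
    intro h0
    have := hs.bj
    rw [← h0] at this
    simp at this
  have hbs : b ∈ supp (G l) := by
    change (G l).coeff b ≠ 0
    have h1 : (cst ((G l).coeff 0) * (1 - single b ((e⁻¹ : (RO O)ˣ) : RO O))).coeff b =
        -((G l).coeff 0 * ((e⁻¹ : (RO O)ˣ) : RO O)) := by
      rw [cst, coeff_single_zero_mul, coeff_sub, Finsupp.sub_apply, one_def, coeff_single,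
        coeff_single, Finsupp.single_eq_same, Finsupp.single_eq_of_ne hb0.symm, zero_sub, mul_neg]
    rw [hs.eq, h1]
    exact neg_ne_zero.mpr (mul_ne_zero (hGz l) (Units.ne_zero _))
  refine ⟨hj', hb, hs.eq, hs.u0, ?_⟩
  intro i hi a ha
  -- `V = G l * H`
  have hV : cl (co phi i0) S h eta D = G l * (cst c * ∏ k ∈ Finset.univ.erase l, G k) := by
    rw [fd.eq, ← Finset.mul_prod_erase Finset.univ G (Finset.mem_univ l)]
    ring
  have hww2 := hww
  rw [hV] at hww2
  have h3 := (hW O P _ (phK phi (co phi i0)) (II phi S i0) (OO phi S) (G l) _ hww2 (hGz l)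
    (key _)).2 j' hj'
  have h4 : ∀ a ∈ supp (cst c * ∏ k ∈ Finset.univ.erase l, G k),
      phK phi (co phi i0) a j' = 0 := by
    rcases h3 with h3 | h3
    · have := h3 b hbs
      change phi (b : L) j' = 0 at this
      rw [hb] at this
      exact absurd this one_ne_zero
    · exact h3
  -- `H = G i * rest`
  have hil : i ∈ Finset.univ.erase l := Finset.mem_erase.mpr ⟨hi, Finset.mem_univ i⟩
  have hH : cst c * ∏ k ∈ Finset.univ.erase l, G k =
      G i * (cst c * ∏ k ∈ (Finset.univ.erase l).erase i, G k) := by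
    rw [← Finset.mul_prod_erase (Finset.univ.erase l) G hil]
    ring
  rw [hH] at h4
  have hGi : G i ≠ 0 := by
    intro h0
    apply hGz i
    rw [h0]; simp
  have h5 := hM O _ (G i) _ hGi (key ((Finset.univ.erase l).erase i))
    (co (phK phi (co phi i0)) j') 0 (fun a ha => (h4 a ha).ge) a ha
  have h6 := hM O _ (G i) _ hGi (key ((Finset.univ.erase l).erase i))
    (-(co (phK phi (co phi i0)) j')) 0 (fun a ha => by
      have := h4 a ha
      change 0 ≤ -(phK phi (co phi i0) a j')
      rw [this]; simp) a ha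
  change 0 ≤ phi (a : L) j' at h5
  change 0 ≤ -(phi (a : L) j') at h6
  omega

end Pool.Agent.B5.H96
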