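import Pool.Agent.Lib.MP_b5021c_nt.IfaceE2

/-!
# Board b5, stage 3, row E2_NNW: coefficients of a nonnegative trigonometric polynomial
-/

namespace Pool.Agent.B5.H96

open scoped LaurentPolynomial

section

variable {L : Type} [AddCommGroup L]

/-- Sum over the roots of unity. -/
theorem root_sum (N : ℕ) (ζ : ℂ) (hζ : IsPrimitiveRoot ζ N) (k : ℤ) (hk : k ≠ 0)
    (hkN : |k| < N) : ∑ j ∈ Finset.range N, (ζ ^ j) ^ k = 0 := by
  have hN : N ≠ 0 := by
    rintro rfl
    have := abs_nonneg k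
    simp only [Nat.cast_zero] at hkN
    omega
  have h1 : ζ ^ k ≠ 1 := by
    intro h
    rw [hζ.zpow_eq_one_iff_dvd] at h
    have h2 := Int.eq_zero_of_abs_lt_dvd h hkN
    exact hk h2
  have h2 : ∀ j : ℕ, (ζ ^ j) ^ k = (ζ ^ k) ^ j := by
    intro j
    rw [← zpow_natCast, ← zpow_natCast, ← zpow_mul, ← zpow_mul, mul_comm]
  simp only [h2]
  have h3 : (ζ ^ k) ^ N = 1 := by
    rw [← h2, hζ.pow_eq_one, one_zpow]
  have h4 := geom_sum_mul (ζ ^ k) N
  rw [h3, sub_self] at h4
  rcases mul_eq_zero.mp h4 with h5 | h5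
  · exact h5
  · exact absurd (sub_eq_zero.mp h5) h1

end

/-- Row E2_NNW. -/
theorem e2nnw (hG : GenS) : NnwS := by
  intro L _ _ _ p hp a
  classical
  set T : Finset L := insert 0 p.coeff.support with hT
  obtain ⟨lam, -, -, hinj⟩ := hG L ∅ T ⊥ 0 (by simp) (by
    intro n x hn hx
    rw [Submodule.mem_bot] at hx ⊢
    exact (smul_eq_zero.mp hx).resolve_left hn) (by simp) (by
    intro x _ y _ hxy
    rw [Submodule.mem_bot] at hxy
    exact sub_eq_zero.mp hxy)
  obtain ⟨N, hN⟩ : ∃ N : ℕ, 0 < N ∧ ∀ x ∈ T, ∀ y ∈ T, |lam x - lam y| < N := by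
    obtain ⟨B, hB⟩ : ∃ B : ℕ, ∀ x ∈ T, (lam x).natAbs ≤ B := by
      refine ⟨T.sup fun x => (lam x).natAbs, fun x hx => ?_⟩
      exact Finset.le_sup (f := fun x => (lam x).natAbs) hx
    refine ⟨2 * B + 1, by omega, fun x hx y hy => ?_⟩
    have h1 := hB x hx
    have h2 := hB y hy
    rw [abs_lt]
    push_cast
    constructor <;> omega
  obtain ⟨hN0, hN1⟩ := hN
  have hζ := Complex.isPrimitiveRoot_exp N hN0.ne'
  set ζ : ℂ := Complex.exp (2 * Real.pi * Complex.I / N) with hζd
  have hζn : ‖ζ‖ = 1 := hζ.norm'_eq_one hN0.ne'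
  set ζc : Circle := ⟨ζ, mem_sphere_zero_iff_norm.mpr hζn⟩ with hζc
  have hcoe : ∀ (j : ℕ) (k : ℤ), (((ζc ^ j) ^ k : Circle) : ℂ) = (ζ ^ j) ^ k := by
    intro j k
    rw [Circle.coe_zpow, Circle.coe_pow]
  -- values
  set Pv : ℕ → ℂ := fun j => evC (twist 1 lam (ζc ^ j)) p with hPv
  have hval : ∀ j, Pv j = ∑ x ∈ p.coeff.support, p.coeff x * (ζ ^ j) ^ (lam x) := by
    intro j
    rw [hPv]
    simp only
    rw [evC_apply, Finsupp.sum]
    apply Finset.sum_congr rfl
    intro x _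
    have h1 : ((twist 1 lam (ζc ^ j)) x : Circle) = (ζc ^ j) ^ (lam x) := by
      change (1 : AddChar L Circle) x * (ζc ^ j) ^ (lam x) = _
      rw [AddChar.one_apply, one_mul]
    rw [h1, hcoe]
  have hζ0 : ζ ≠ 0 := by
    intro h
    rw [h, norm_zero] at hζn
    exact zero_ne_one hζn
  -- the averages
  have hav : ∀ x ∈ T, ∑ j ∈ Finset.range N, Pv j * (ζ ^ j) ^ (-lam x) = N * p.coeff x := by
    intro x hx
    have h1 : ∀ j ∈ Finset.range N, Pv j * (ζ ^ j) ^ (-lam x) =
        ∑ y ∈ p.coeff.support, p.coeff y * (ζ ^ j) ^ (lam y - lam x) := by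
      intro j _
      rw [hval, Finset.sum_mul]
      apply Finset.sum_congr rfl
      intro y _
      rw [mul_assoc, ← zpow_add₀ (pow_ne_zero j hζ0), sub_eq_add_neg]
    rw [Finset.sum_congr rfl h1, Finset.sum_comm]
    have h2 : ∀ y ∈ p.coeff.support, ∑ j ∈ Finset.range N,
        p.coeff y * (ζ ^ j) ^ (lam y - lam x) = if y = x then (N : ℂ) * p.coeff x else 0 := by
      intro y hy
      rw [← Finset.mul_sum]
      split_ifs with h
      · rw [h, sub_self]
        simp only [zpow_zero, Finset.sum_const, Finset.card_range, nsmul_eq_mul, mul_one]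
        ring
      · rw [root_sum N ζ hζ (lam y - lam x), mul_zero]
        · intro h3
          exact h (hinj y (Finset.mem_insert_of_mem hy) x hx (sub_eq_zero.mp h3))
        · exact hN1 y (Finset.mem_insert_of_mem hy) x hx
    rw [Finset.sum_congr rfl h2, Finset.sum_ite_eq' p.coeff.support x]
    split_ifs with h
    · rfl
    · rw [Finsupp.notMem_support_iff.mp h, mul_zero]
  have hre : ∀ j, Pv j = (((Pv j).re : ℝ) : ℂ) := by
    intro j
    have h1 := (hp (twist 1 lam (ζc ^ j))).1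
    apply Complex.ext
    · simp
    · rw [Complex.ofReal_im]
      exact h1
  have hnn : ∀ j, 0 ≤ (Pv j).re := fun j => (hp (twist 1 lam (ζc ^ j))).2
  have hNc : (0 : ℝ) < N := by exact_mod_cast hN0
  -- the mean
  have h0 : ∑ j ∈ Finset.range N, (Pv j).re = N * (p.coeff 0).re := by
    have h1 := hav 0 (Finset.mem_insert_self _ _)
    rw [map_zero, neg_zero] at h1
    simp only [zpow_zero, mul_one] at h1
    have h2 := congrArg Complex.re h1
    rw [Complex.re_sum, Complex.mul_re, Complex.natCast_re, Complex.natCast_im, zero_mul,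
      sub_zero] at h2
    exact h2
  by_cases ha : a ∈ T
  · have h1 := hav a ha
    have h2 : ‖(N : ℂ) * p.coeff a‖ ≤ ∑ j ∈ Finset.range N, (Pv j).re := by
      rw [← h1]
      refine (norm_sum_le _ _).trans (Finset.sum_le_sum fun j _ => ?_)
      rw [norm_mul, norm_zpow, norm_pow, hζn, one_pow, one_zpow, mul_one, hre j,
        Complex.norm_real, Real.norm_eq_abs, Complex.ofReal_re, abs_of_nonneg (hnn j)]
    rw [norm_mul, Complex.norm_natCast, h0] at h2
    exact le_of_mul_le_mul_left h2 hNc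
  · have h1 : p.coeff a = 0 := by
      rw [hT, Finset.mem_insert, not_or] at ha
      exact Finsupp.notMem_support_iff.mp ha.2
    rw [h1, norm_zero]
    have h2 : 0 ≤ (N : ℝ) * (p.coeff 0).re := by
      rw [← h0]
      exact Finset.sum_nonneg fun j _ => hnn j
    exact nonneg_of_mul_nonneg_right h2 hNc

end Pool.Agent.B5.H96
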