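import Pool.Agent.Lib.MP_b5021c_nt.IfaceE3
import Pool.Agent.Lib.MP_b5021c_nt.B.H71.I2c
import Pool.Agent.Lib.MP_b5021c_nt.B.H83.I1A
import Pool.Agent.Lib.MP_b5021c_nt.H74.Apa

/-!
# Board b5, stage 3, chapter E3: elements which are multi-affine in two ports
-/

namespace Pool.Agent.B5.H96

open scoped LaurentPolynomial
open AddMonoidAlgebra Pool.Agent.B5.H71

set_option linter.unusedSectionVars false

/-- Two dual pairs. -/
structure Fr {L : Type} [AddCommGroup L] (k1 k2 : L →+ ℤ) (b S : L) : Prop where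
  b1 : k1 b = 1
  b2 : k2 b = 0
  s1 : k1 S = 0
  s2 : k2 S = 1

section Four

variable {O : Type} [CommRing O] [IsDomain O] {L : Type} [AddCommGroup L]

/-- Exponents in the common kernel. -/
def Z2 (k1 k2 : L →+ ℤ) (F : AO O L) : Prop := ∀ a ∈ supp F, k1 a = 0 ∧ k2 a = 0

/-- `F0 + x F1 + y F2 + x y F3`. -/
noncomputable def four (b S : L) (x y : (RO O)ˣ) (F0 F1 F2 F3 : AO O L) : AO O L :=
  F0 + single b (x : RO O) * F1 + single S (y : RO O) * F2 +
    single b (x : RO O) * single S (y : RO O) * F3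

variable {k1 k2 : L →+ ℤ} {b S : L}

theorem z2_coeff {F : AO O L} (hF : Z2 k1 k2 F) {a : L} (ha : ¬ (k1 a = 0 ∧ k2 a = 0)) :
    F.coeff a = 0 := by
  by_contra h
  exact ha (hF a h)

theorem z2_add {F G : AO O L} (hF : Z2 k1 k2 F) (hG : Z2 k1 k2 G) : Z2 k1 k2 (F + G) := by
  intro a ha
  by_contra h
  apply ha
  rw [coeff_add, Finsupp.add_apply, z2_coeff hF h, z2_coeff hG h, add_zero]

theorem z2_neg {F : AO O L} (hF : Z2 k1 k2 F) : Z2 k1 k2 (-F) := by
  intro a ha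
  by_contra h
  apply ha
  rw [coeff_neg, Finsupp.neg_apply, z2_coeff hF h, neg_zero]

theorem z2_sub {F G : AO O L} (hF : Z2 k1 k2 F) (hG : Z2 k1 k2 G) : Z2 k1 k2 (F - G) := by
  rw [sub_eq_add_neg]
  exact z2_add hF (z2_neg hG)

theorem z2_zero : Z2 k1 k2 (0 : AO O L) := by
  intro a ha
  exact absurd rfl ha

theorem supp_mul' (F G : AO O L) (c : L) (hc : c ∈ supp (F * G)) :
    ∃ a ∈ supp F, ∃ b ∈ supp G, a + b = c := by
  obtain ⟨a, ha, b, hb, h⟩ := Pool.Agent.B5.H74.supp_mul F G c hc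
  exact ⟨a, ha, b, hb, h⟩

theorem z2_mul {F G : AO O L} (hF : Z2 k1 k2 F) (hG : Z2 k1 k2 G) : Z2 k1 k2 (F * G) := by
  intro a ha
  obtain ⟨a1, h1, a2, h2, rfl⟩ := supp_mul' F G a ha
  rw [map_add, map_add, (hF a1 h1).1, (hF a1 h1).2, (hG a2 h2).1, (hG a2 h2).2]
  exact ⟨rfl, rfl⟩

theorem z2_single {a : L} {c : RO O} (h1 : k1 a = 0) (h2 : k2 a = 0) :
    Z2 k1 k2 (single a c : AO O L) := by
  intro a' ha'
  by_cases h : a' = a
  · rw [h]; exact ⟨h1, h2⟩
  · exfalso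
    apply ha'
    rw [coeff_single, Finsupp.single_eq_of_ne h]

theorem four_coeff (x y : (RO O)ˣ) (F0 F1 F2 F3 : AO O L) (a : L) :
    (four b S x y F0 F1 F2 F3).coeff a = F0.coeff a + (x : RO O) * F1.coeff (-b + a) +
      (y : RO O) * F2.coeff (-S + a) + ((x : RO O) * (y : RO O)) * F3.coeff (-(b + S) + a) := by
  rw [four, single_mul_single]
  simp only [coeff_add, Finsupp.add_apply, coeff_single_mul_apply]

variable (fr : Fr k1 k2 b S)
include fr

theorem four_c0 (x y : (RO O)ˣ) {F0 F1 F2 F3 : AO O L} (h1 : Z2 k1 k2 F1)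
    (h2 : Z2 k1 k2 F2) (h3 : Z2 k1 k2 F3) {a : L} (ha1 : k1 a = 0) (ha2 : k2 a = 0) :
    (four b S x y F0 F1 F2 F3).coeff a = F0.coeff a := by
  have e1 := fr.b1; have e2 := fr.b2; have e3 := fr.s1; have e4 := fr.s2
  rw [four_coeff, z2_coeff h1, z2_coeff h2, z2_coeff h3]
  · ring
  · simp only [map_add, map_neg]; omega
  · simp only [map_add, map_neg]; omega
  · simp only [map_add, map_neg]; omega

theorem four_c1 (x y : (RO O)ˣ) {F0 F1 F2 F3 : AO O L} (h0 : Z2 k1 k2 F0)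
    (h2 : Z2 k1 k2 F2) (h3 : Z2 k1 k2 F3) {a : L} (ha1 : k1 a = 0) (ha2 : k2 a = 0) :
    (four b S x y F0 F1 F2 F3).coeff (b + a) = (x : RO O) * F1.coeff a := by
  have e1 := fr.b1; have e2 := fr.b2; have e3 := fr.s1; have e4 := fr.s2
  rw [four_coeff, z2_coeff h0, z2_coeff h2, z2_coeff h3, neg_add_cancel_left]
  · ring
  · simp only [map_add, map_neg]; omega
  · simp only [map_add, map_neg]; omega
  · simp only [map_add]; omega

theorem four_c2 (x y : (RO O)ˣ) {F0 F1 F2 F3 : AO O L} (h0 : Z2 k1 k2 F0)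
    (h1 : Z2 k1 k2 F1) (h3 : Z2 k1 k2 F3) {a : L} (ha1 : k1 a = 0) (ha2 : k2 a = 0) :
    (four b S x y F0 F1 F2 F3).coeff (S + a) = (y : RO O) * F2.coeff a := by
  have e1 := fr.b1; have e2 := fr.b2; have e3 := fr.s1; have e4 := fr.s2
  rw [four_coeff, z2_coeff h0, z2_coeff h1, z2_coeff h3, neg_add_cancel_left]
  · ring
  · simp only [map_add, map_neg]; omega
  · simp only [map_add, map_neg]; omega
  · simp only [map_add]; omega

theorem four_c3 (x y : (RO O)ˣ) {F0 F1 F2 F3 : AO O L} (h0 : Z2 k1 k2 F0)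
    (h1 : Z2 k1 k2 F1) (h2 : Z2 k1 k2 F2) {a : L} (ha1 : k1 a = 0) (ha2 : k2 a = 0) :
    (four b S x y F0 F1 F2 F3).coeff (b + S + a) = ((x : RO O) * (y : RO O)) * F3.coeff a := by
  have e1 := fr.b1; have e2 := fr.b2; have e3 := fr.s1; have e4 := fr.s2
  rw [four_coeff, z2_coeff h0, z2_coeff h1, z2_coeff h2, neg_add_cancel_left]
  · ring
  · simp only [map_add, map_neg]; omega
  · simp only [map_add, map_neg]; omega
  · simp only [map_add]; omega

omit fr in
theorem four_supp (x y : (RO O)ˣ) {F0 F1 F2 F3 : AO O L} {a : L}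
    (ha : a ∈ supp (four b S x y F0 F1 F2 F3)) :
    a ∈ supp F0 ∨ (∃ a' ∈ supp F1, a = b + a') ∨ (∃ a' ∈ supp F2, a = S + a') ∨
      ∃ a' ∈ supp F3, a = b + S + a' := by
  by_contra hcon
  rw [not_or, not_or, not_or] at hcon
  obtain ⟨h0, h1, h2, h3⟩ := hcon
  apply ha
  have e0 : F0.coeff a = 0 := by
    by_contra h; exact h0 h
  have e1 : F1.coeff (-b + a) = 0 := by
    by_contra h; exact h1 ⟨-b + a, h, by rw [add_neg_cancel_left]⟩
  have e2 : F2.coeff (-S + a) = 0 := by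
    by_contra h; exact h2 ⟨-S + a, h, by rw [add_neg_cancel_left]⟩
  have e3 : F3.coeff (-(b + S) + a) = 0 := by
    by_contra h; exact h3 ⟨-(b + S) + a, h, by rw [add_neg_cancel_left]⟩
  rw [four_coeff, e0, e1, e2, e3]
  ring

theorem four_inj (x y : (RO O)ˣ) {F0 F1 F2 F3 G0 G1 G2 G3 : AO O L} (h0 : Z2 k1 k2 F0)
    (h1 : Z2 k1 k2 F1) (h2 : Z2 k1 k2 F2) (h3 : Z2 k1 k2 F3) (g0 : Z2 k1 k2 G0)
    (g1 : Z2 k1 k2 G1) (g2 : Z2 k1 k2 G2) (g3 : Z2 k1 k2 G3)
    (h : four b S x y F0 F1 F2 F3 = four b S x y G0 G1 G2 G3) :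
    F0 = G0 ∧ F1 = G1 ∧ F2 = G2 ∧ F3 = G3 := by
  have hx : (x : RO O) ≠ 0 := x.ne_zero
  have hy : (y : RO O) ≠ 0 := y.ne_zero
  refine ⟨?_, ?_, ?_, ?_⟩
  · apply AddMonoidAlgebra.ext
    apply Finsupp.ext
    intro a
    by_cases ha : k1 a = 0 ∧ k2 a = 0
    · rw [← four_c0 fr x y h1 h2 h3 ha.1 ha.2 (F0 := F0), h, four_c0 fr x y g1 g2 g3 ha.1 ha.2]
    · rw [z2_coeff h0 ha, z2_coeff g0 ha]
  · apply AddMonoidAlgebra.ext
    apply Finsupp.ext
    intro a
    by_cases ha : k1 a = 0 ∧ k2 a = 0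
    · apply mul_left_cancel₀ hx
      rw [← four_c1 fr x y h0 h2 h3 ha.1 ha.2, h, four_c1 fr x y g0 g2 g3 ha.1 ha.2]
    · rw [z2_coeff h1 ha, z2_coeff g1 ha]
  · apply AddMonoidAlgebra.ext
    apply Finsupp.ext
    intro a
    by_cases ha : k1 a = 0 ∧ k2 a = 0
    · apply mul_left_cancel₀ hy
      rw [← four_c2 fr x y h0 h1 h3 ha.1 ha.2, h, four_c2 fr x y g0 g1 g3 ha.1 ha.2]
    · rw [z2_coeff h2 ha, z2_coeff g2 ha]
  · apply AddMonoidAlgebra.ext
    apply Finsupp.ext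
    intro a
    by_cases ha : k1 a = 0 ∧ k2 a = 0
    · apply mul_left_cancel₀ (mul_ne_zero hx hy)
      rw [← four_c3 fr x y h0 h1 h2 ha.1 ha.2, h, four_c3 fr x y g0 g1 g2 ha.1 ha.2]
    · rw [z2_coeff h3 ha, z2_coeff g3 ha]

/-- Decomposition. -/
theorem four_dec (x y : (RO O)ˣ) (G : AO O L)
    (hG : ∀ a ∈ supp G, (k1 a = 0 ∨ k1 a = 1) ∧ (k2 a = 0 ∨ k2 a = 1)) :
    ∃ G0 G1 G2 G3 : AO O L, Z2 k1 k2 G0 ∧ Z2 k1 k2 G1 ∧ Z2 k1 k2 G2 ∧ Z2 k1 k2 G3 ∧
      G = four b S x y G0 G1 G2 G3 ∧ ((∀ a ∈ supp G, k1 a = 0) → G1 = 0 ∧ G3 = 0) ∧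
      ((∀ a ∈ supp G, k2 a = 0) → G2 = 0 ∧ G3 = 0) := by
  classical
  have e1 := fr.b1; have e2 := fr.b2; have e3 := fr.s1; have e4 := fr.s2
  -- the parts
  let pt : ℤ → ℤ → AO O L := fun i j =>
    AddMonoidAlgebra.ofCoeff (G.coeff.filter fun a => k1 a = i ∧ k2 a = j)
  have hpt : ∀ i j a, (pt i j).coeff a = if k1 a = i ∧ k2 a = j then G.coeff a else 0 := by
    intro i j a
    change (G.coeff.filter fun a => k1 a = i ∧ k2 a = j) a = _
    rw [Finsupp.filter_apply]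
  have hxx : ∀ a : L, ∀ c : (RO O)ˣ, ∀ F : AO O L,
      (single a (c : RO O) : AO O L) * (single (-a) ((c⁻¹ : (RO O)ˣ) : RO O) * F) = F := by
    intro a c F
    rw [← mul_assoc, single_mul_single, add_neg_cancel, Units.mul_inv]
    exact one_mul _
  refine ⟨pt 0 0, single (-b) ((x⁻¹ : (RO O)ˣ) : RO O) * pt 1 0,
    single (-S) ((y⁻¹ : (RO O)ˣ) : RO O) * pt 0 1,
    single (-S) ((y⁻¹ : (RO O)ˣ) : RO O) * (single (-b) ((x⁻¹ : (RO O)ˣ) : RO O) * pt 1 1),
    ?_, ?_, ?_, ?_, ?_, ?_, ?_⟩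
  · intro a ha
    by_contra h
    apply ha
    rw [hpt, if_neg h]
  · intro a ha
    by_contra h
    apply ha
    rw [coeff_single_mul_apply, hpt, if_neg, mul_zero]
    rintro ⟨h1, h2⟩
    apply h
    rw [map_add, map_neg, map_neg] at h1 h2
    omega
  · intro a ha
    by_contra h
    apply ha
    rw [coeff_single_mul_apply, hpt, if_neg, mul_zero]
    rintro ⟨h1, h2⟩
    apply h
    rw [map_add, map_neg, map_neg] at h1 h2
    omega
  · intro a ha
    by_contra h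
    apply ha
    rw [coeff_single_mul_apply, coeff_single_mul_apply, hpt, if_neg, mul_zero, mul_zero]
    rintro ⟨h1, h2⟩
    apply h
    simp only [map_add, map_neg] at h1 h2
    omega
  · rw [four, hxx, hxx, mul_assoc, hxx, hxx]
    apply AddMonoidAlgebra.ext
    apply Finsupp.ext
    intro a
    simp only [coeff_add, Finsupp.add_apply, hpt]
    by_cases ha : G.coeff a = 0
    · simp [ha]
    · obtain ⟨h1 | h1, h2 | h2⟩ := hG a ha <;> simp [h1, h2]
  · intro h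
    have h1 : pt 1 0 = 0 := by
      apply AddMonoidAlgebra.ext
      apply Finsupp.ext
      intro a
      rw [hpt]
      split_ifs with h2
      · by_contra h3
        have := h a h3
        omega
      · rfl
    have h1' : pt 1 1 = 0 := by
      apply AddMonoidAlgebra.ext
      apply Finsupp.ext
      intro a
      rw [hpt]
      split_ifs with h2
      · by_contra h3
        have := h a h3
        omega
      · rfl
    simp only [h1, h1', mul_zero, and_self]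
  · intro h
    have h1 : pt 0 1 = 0 := by
      apply AddMonoidAlgebra.ext
      apply Finsupp.ext
      intro a
      rw [hpt]
      split_ifs with h2
      · by_contra h3
        have := h a h3
        omega
      · rfl
    have h1' : pt 1 1 = 0 := by
      apply AddMonoidAlgebra.ext
      apply Finsupp.ext
      intro a
      rw [hpt]
      split_ifs with h2
      · by_contra h3
        have := h a h3
        omega
      · rfl
    simp only [h1, h1', mul_zero, and_self]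

end Four

end Pool.Agent.B5.H96
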