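import Pool.Agent.Lib.MP_b5021c_nt.B.H96.E3Part

/-!
# Board b5, stage 3, chapter E3: unitarity of the normal form
-/

namespace Pool.Agent.B5.H96

open scoped LaurentPolynomial
open AddMonoidAlgebra Pool.Agent.B5.H71

set_option linter.unusedSectionVars false

variable {O : Type} [CommRing O] [IsDomain O] [IsPrincipalIdealRing O] [Coef O] {L : Type}
  [AddCommGroup L] [Module.Free ℤ L] [Module.Finite ℤ L] {k1 k2 : L →+ ℤ} {b S : L}

theorem z2_sharp {F : AO O L} (hF : Z2 k1 k2 F) : Z2 k1 k2 (sharp F) := by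
  intro a ha
  have h1 : F.coeff (-a) ≠ 0 := by
    intro h
    apply ha
    rw [sharp_coeff', h, map_zero]
  have h2 := hF (-a) h1
  rw [map_neg, map_neg] at h2
  omega

theorem inv_mul' (hE : EvRS) (hZ : ZfinS) (a : L) (x : (RO O)ˣ) :
    (single a (x : RO O) : AO O L) * sharp (single a (x : RO O)) = 1 := by
  rw [sharp_single, rsh_unit hE hZ, single_mul_single, add_neg_cancel, Units.mul_inv]
  rfl

theorem four_unit_mul (x y : (RO O)ˣ) (F0 F1 F2 F3 k : AO O L) :
    four b S x y F0 F1 F2 F3 * k = four b S x y (F0 * k) (F1 * k) (F2 * k) (F3 * k) := by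
  simp only [four]
  ring

theorem unit_parts (hU : UnitAS) (hE : EvRS) (hZ : ZfinS) (fr : Fr k1 k2 b S) (x y : (RO O)ˣ)
    (U H : AO O L) (hUz : Z2 k1 k2 U) (hHz : Z2 k1 k2 H) (D : AO O L)
    (hD : D = four b S x y (U + H) (-H) (-H) (H - U)) (h0 : D.coeff 0 ≠ 0)
    (H0 : H.coeff 0 ≠ 0) (hun : Unitary D) : ∃ (a2 : L) (c2 : RO O), IsUnit c2 ∧ k1 a2 = 0 ∧
      k2 a2 = 0 ∧ sharp U = -(U * single a2 c2) ∧ sharp H = H * single a2 c2 := by
  have e1 := fr.b1; have e2 := fr.b2; have e3 := fr.s1; have e4 := fr.s2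
  obtain ⟨v, hv⟩ := hun.symm
  obtain ⟨a1, c1, hc1, hv1⟩ := (hU O L (v : AO O L)).mp v.isUnit
  rw [hv1] at hv
  have hX := inv_mul' hE hZ b x
  have hY := inv_mul' hE hZ S y
  set X : AO O L := single b (x : RO O) with hXd
  set Y : AO O L := single S (y : RO O) with hYd
  set a2 : L := a1 + b + S with ha2
  set c2 : RO O := c1 * (x : RO O) * (y : RO O) with hc2
  have hk : (single a2 c2 : AO O L) = single a1 c1 * X * Y := by
    rw [hXd, hYd, single_mul_single, single_mul_single]
  have hc2u : IsUnit c2 := (hc1.mul x.isUnit).mul y.isUnit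
  have hE4 : four b S x y ((U + H) * single a2 c2) ((-H) * single a2 c2) ((-H) * single a2 c2)
      ((H - U) * single a2 c2) =
      four b S x y (sharp H - sharp U) (-sharp H) (-sharp H) (sharp U + sharp H) := by
    have h1 : sharp D = (sharp U + sharp H) - sharp X * sharp H - sharp Y * sharp H +
        sharp X * sharp Y * (sharp H - sharp U) := by
      rw [hD, four, ← hXd, ← hYd]
      simp only [map_add, map_mul, map_neg, map_sub]
      ring
    have h2 : D * single a2 c2 = sharp D * (X * Y) := by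
      rw [hk, ← hv]
      ring
    have h3 : four b S x y ((U + H) * single a2 c2) ((-H) * single a2 c2)
        ((-H) * single a2 c2) ((H - U) * single a2 c2) = D * single a2 c2 := by
      rw [hD, four_unit_mul]
    rw [h3, h2, h1, four, ← hXd, ← hYd]
    linear_combination (-(sharp H) * Y + sharp Y * Y * (sharp H - sharp U)) * hX +
      (-(sharp H) * X + (sharp H - sharp U)) * hY
  -- the degrees of `a2`
  have hsup : ∀ a, D.coeff a ≠ 0 → (k1 (a + a2) = 0 ∨ k1 (a + a2) = 1) ∧
      (k2 (a + a2) = 0 ∨ k2 (a + a2) = 1) := by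
    intro a ha
    have h1 : a + a2 ∈ supp (four b S x y (sharp H - sharp U) (-sharp H) (-sharp H)
        (sharp U + sharp H)) := by
      have h2 : four b S x y (sharp H - sharp U) (-sharp H) (-sharp H)
        (sharp U + sharp H) = D * single a2 c2 := by
        rw [← hE4, hD, four_unit_mul]
      change (four b S x y (sharp H - sharp U) (-sharp H) (-sharp H)
        (sharp U + sharp H)).coeff (a + a2) ≠ 0
      rw [h2, coeff_mul_single_apply, add_neg_cancel_right]
      exact mul_ne_zero ha hc2u.ne_zero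
    have hzH := z2_sharp hHz
    have hzU := z2_sharp hUz
    rcases four_supp x y h1 with h2 | ⟨a', h2, h3⟩ | ⟨a', h2, h3⟩ | ⟨a', h2, h3⟩
    · have := z2_sub hzH hzU _ h2
      exact ⟨Or.inl this.1, Or.inl this.2⟩
    · have := z2_neg hzH _ h2
      rw [h3, map_add, map_add, this.1, this.2, e1, e2]
      exact ⟨Or.inr rfl, Or.inl rfl⟩
    · have := z2_neg hzH _ h2
      rw [h3, map_add, map_add, this.1, this.2, e3, e4]
      exact ⟨Or.inl rfl, Or.inr rfl⟩
    · have := z2_add hzU hzH _ h2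
      rw [h3, map_add, map_add, map_add, map_add, this.1, this.2, e1, e2, e3, e4]
      exact ⟨Or.inr rfl, Or.inr rfl⟩
  have hb : D.coeff b ≠ 0 := by
    have h1 := four_c1 fr x y (F1 := -H) (z2_add hUz hHz) (z2_neg hHz) (z2_sub hHz hUz)
      (map_zero k1) (map_zero k2)
    rw [add_zero, ← hD, coeff_neg, Finsupp.neg_apply] at h1
    rw [h1]
    exact mul_ne_zero x.ne_zero (neg_ne_zero.mpr H0)
  have hS : D.coeff S ≠ 0 := by
    have h1 := four_c2 fr x y (F2 := -H) (z2_add hUz hHz) (z2_neg hHz) (z2_sub hHz hUz)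
      (map_zero k1) (map_zero k2)
    rw [add_zero, ← hD, coeff_neg, Finsupp.neg_apply] at h1
    rw [h1]
    exact mul_ne_zero y.ne_zero (neg_ne_zero.mpr H0)
  have g0 := hsup 0 h0
  have gb := hsup b hb
  have gS := hsup S hS
  rw [zero_add] at g0
  rw [map_add k1 b a2, map_add k2 b a2, e1, e2] at gb
  rw [map_add k1 S a2, map_add k2 S a2, e3, e4] at gS
  have hk1 : k1 a2 = 0 := by omega
  have hk2 : k2 a2 = 0 := by omega
  have hz : Z2 k1 k2 (single a2 c2 : AO O L) := z2_single hk1 hk2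
  obtain ⟨p0, p1, -, -⟩ := four_inj fr x y (z2_mul (z2_add hUz hHz) hz) (z2_mul (z2_neg hHz) hz)
    (z2_mul (z2_neg hHz) hz) (z2_mul (z2_sub hHz hUz) hz)
    (z2_sub (z2_sharp hHz) (z2_sharp hUz)) (z2_neg (z2_sharp hHz)) (z2_neg (z2_sharp hHz))
    (z2_add (z2_sharp hUz) (z2_sharp hHz)) hE4
  refine ⟨a2, c2, hc2u, hk1, hk2, ?_, ?_⟩
  · linear_combination p0 + p1
  · linear_combination p1

end Pool.Agent.B5.H96
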