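import Pool.Agent.Lib.MP_b5021c_nt.B.H96.E3Unit

/-!
# Board b5, stage 3, chapter E3: values of the normal form
-/

namespace Pool.Agent.B5.H96

open scoped LaurentPolynomial
open AddMonoidAlgebra Pool.Agent.B5.H71
open Pool.Agent.B5.H83 (mev_zero mev_add mev_single eq_of_single)

set_option linter.unusedSectionVars false

section Cpx

theorem re_pos_cayley (x : ℂ) (hx : ‖x‖ < 1) : 0 < ((1 + x) / (1 - x)).re := by
  have h1 : (1 : ℂ) - x ≠ 0 := by
    intro h
    have h2 : x = 1 := (sub_eq_zero.mp h).symm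
    rw [h2, norm_one] at hx
    exact lt_irrefl _ hx
  have h2 : 0 < Complex.normSq (1 - x) := Complex.normSq_pos.mpr h1
  have h3 : Complex.normSq x < 1 := by
    rw [Complex.normSq_eq_norm_sq]
    have := norm_nonneg x
    nlinarith
  rw [Complex.div_re, ← add_div]
  apply div_pos _ h2
  rw [Complex.normSq_apply] at h3
  simp only [Complex.add_re, Complex.sub_re, Complex.add_im, Complex.sub_im, Complex.one_re,
    Complex.one_im]
  nlinarith

theorem swap_zero (U H x y : ℂ) (hx : ‖x‖ < 1) (hy : ‖y‖ < 1)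
    (h : (1 - x * y) * H + (1 - x) * (1 - y) * U = 0) :
    ∃ w : ℂ, ‖w‖ < 1 ∧ (1 - w * w) * U + (1 - w) * (1 - w) * H = 0 := by
  have hx1 : (1 : ℂ) - x ≠ 0 := by
    intro h
    have h2 : x = 1 := (sub_eq_zero.mp h).symm
    rw [h2, norm_one] at hx
    exact lt_irrefl _ hx
  have hy1 : (1 : ℂ) - y ≠ 0 := by
    intro h
    have h2 : y = 1 := (sub_eq_zero.mp h).symm
    rw [h2, norm_one] at hy
    exact lt_irrefl _ hy
  obtain ⟨g, hg⟩ : ∃ g : ℂ, g = ((1 + x) / (1 - x) + (1 + y) / (1 - y)) / 2 := ⟨_, rfl⟩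
  have hgre : 0 < g.re := by
    have h1 := re_pos_cayley x hx
    have h2 := re_pos_cayley y hy
    have h3 : g.re = (((1 + x) / (1 - x)).re + ((1 + y) / (1 - y)).re) / 2 := by
      rw [hg]
      rw [show (2 : ℂ) = ((2 : ℝ) : ℂ) by norm_num, Complex.div_ofReal_re, Complex.add_re]
    rw [h3]
    linarith
  have hge : g * ((1 - x) * (1 - y)) = 1 - x * y := by
    rw [hg]
    field_simp
    ring
  have h1 : g * H + U = 0 := by
    have h2 : ((1 - x) * (1 - y)) * (g * H + U) = 0 := by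
      linear_combination h + H * hge
    exact (mul_eq_zero.mp h2).resolve_left (mul_ne_zero hx1 hy1)
  have hg1 : (1 : ℂ) + g ≠ 0 := by
    intro h2
    have h3 := congrArg Complex.re h2
    rw [Complex.add_re, Complex.one_re, Complex.zero_re] at h3
    linarith
  refine ⟨(1 - g) / (1 + g), ?_, ?_⟩
  · rw [norm_div, div_lt_one (norm_pos_iff.mpr hg1)]
    have h2 : ‖1 - g‖ ^ 2 < ‖1 + g‖ ^ 2 := by
      simp only [← Complex.normSq_eq_norm_sq, Complex.normSq_apply, Complex.sub_re,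
        Complex.add_re, Complex.sub_im, Complex.add_im, Complex.one_re, Complex.one_im]
      nlinarith
    exact lt_of_pow_lt_pow_left₀ 2 (norm_nonneg _) h2
  · have h2 : (1 : ℂ) - (1 - g) / (1 + g) = 2 * g / (1 + g) := by
      field_simp
      ring
    have h3 : (1 : ℂ) - (1 - g) / (1 + g) * ((1 - g) / (1 + g)) = 4 * g / (1 + g) ^ 2 := by
      field_simp
      ring
    rw [h2, h3]
    have h4 : 4 * g / (1 + g) ^ 2 * U + 2 * g / (1 + g) * (2 * g / (1 + g)) * H =
        4 * g / (1 + g) ^ 2 * (g * H + U) := by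
      field_simp
      ring
    rw [h4, h1, mul_zero]

end Cpx

variable {O : Type} [CommRing O] [IsDomain O] [IsPrincipalIdealRing O] [Coef O] {L : Type}
  [AddCommGroup L] [Module.Free ℤ L] [Module.Finite ℤ L] {k1 k2 : L →+ ℤ} {b S : L}

/-- The value as an additive map. -/
noncomputable def mv {ι : Type} [Fintype ι] (z : Circle) (u : AddChar L Circle) (mu : ι → L →+ ℤ)
    (t : ι → ℂ) : AO O L →+ ℂ where
  toFun F := mev u mu t (spec z F)
  map_zero' := by rw [map_zero, mev_zero]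
  map_add' F G := by rw [map_add, mev_add]

theorem mv_single {ι : Type} [Fintype ι] (z : Circle) (u : AddChar L Circle) (mu : ι → L →+ ℤ)
    (t : ι → ℂ) (a : L) (q : RO O) :
    mv z u mu t (single a q) = evR z q * (u a : ℂ) * ∏ i, t i ^ (mu i a).toNat := by
  change mev u mu t (spec z (single a q)) = _
  rw [Pool.Agent.B5.H83.spec_single, mev_single]

theorem mv_single_mul {ι : Type} [Fintype ι] (z : Circle) (u : AddChar L Circle)
    (mu : ι → L →+ ℤ) (t : ι → ℂ) (c : L) (q : RO O) (F : AO O L) (hc : ∀ i, 0 ≤ mu i c)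
    (hF : ∀ a ∈ supp F, ∀ i, 0 ≤ mu i a) :
    mv z u mu t (single c q * F) =
      (evR z q * (u c : ℂ) * ∏ i, t i ^ (mu i c).toNat) * mv z u mu t F := by
  refine eq_of_single ((mv z u mu t).comp (AddMonoidHom.mulLeft (single c q)))
    ((AddMonoidHom.mulLeft (evR z q * (u c : ℂ) * ∏ i, t i ^ (mu i c).toNat)).comp
      (mv z u mu t)) F (fun a ha => ?_)
  change mv z u mu t (single c q * single a (F.coeff a)) = _ * mv z u mu t (single a (F.coeff a))
  rw [single_mul_single, mv_single, mv_single]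
  have h1 : ∏ i, t i ^ (mu i (c + a)).toNat =
      (∏ i, t i ^ (mu i c).toNat) * ∏ i, t i ^ (mu i a).toNat := by
    rw [← Finset.prod_mul_distrib]
    apply Finset.prod_congr rfl
    intro i _
    rw [map_add, Int.toNat_add (hc i) (hF a ha i), pow_add]
  have h2 : (u (c + a) : ℂ) = (u c : ℂ) * (u a : ℂ) := by
    rw [AddChar.map_add_eq_mul, Circle.coe_mul]
  rw [h1, h2, map_mul]
  ring

theorem mv_z2 (z : Circle) (u : AddChar L Circle) (m : L →+ ℤ) (s t1 t2 t1' t2' : ℂ) (F : AO O L)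
    (hF : Z2 k1 k2 F) :
    mv z u ![m, k1, k2] ![s, t1, t2] F = mv z u ![m, k1, k2] ![s, t1', t2'] F := by
  refine eq_of_single _ _ F (fun a ha => ?_)
  rw [mv_single, mv_single, Fin.prod_univ_three, Fin.prod_univ_three]
  have h1 := hF a ha
  simp [h1.1, h1.2]

theorem mv_four (fr : Fr k1 k2 b S) (z : Circle) (u : AddChar L Circle) (m : L →+ ℤ)
    (hmb : m b = 0) (hmS : m S = 0) (x y : (RO O)ˣ) (F0 F1 F2 F3 : AO O L) (h1 : Z2 k1 k2 F1)
    (h2 : Z2 k1 k2 F2) (h3 : Z2 k1 k2 F3) (m1 : ∀ a ∈ supp F1, 0 ≤ m a)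
    (m2 : ∀ a ∈ supp F2, 0 ≤ m a) (m3 : ∀ a ∈ supp F3, 0 ≤ m a) (s t1 t2 : ℂ) :
    mv z u ![m, k1, k2] ![s, t1, t2] (four b S x y F0 F1 F2 F3) =
      mv z u ![m, k1, k2] ![s, t1, t2] F0 +
      (evR z (x : RO O) * (u b : ℂ) * t1) * mv z u ![m, k1, k2] ![s, t1, t2] F1 +
      (evR z (y : RO O) * (u S : ℂ) * t2) * mv z u ![m, k1, k2] ![s, t1, t2] F2 +
      (evR z (x : RO O) * (u b : ℂ) * t1) * (evR z (y : RO O) * (u S : ℂ) * t2) *
        mv z u ![m, k1, k2] ![s, t1, t2] F3 := by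
  have e1 := fr.b1; have e2 := fr.b2; have e3 := fr.s1; have e4 := fr.s2
  have nn : ∀ {F : AO O L}, Z2 k1 k2 F → (∀ a ∈ supp F, 0 ≤ m a) →
      ∀ a ∈ supp F, ∀ i, 0 ≤ (![m, k1, k2] : Fin 3 → L →+ ℤ) i a := by
    intro F hF hm a ha i
    have h4 := hF a ha
    have h5 := hm a ha
    fin_cases i
    · exact h5
    · exact h4.1.ge
    · exact h4.2.ge
  have nb : ∀ i, 0 ≤ (![m, k1, k2] : Fin 3 → L →+ ℤ) i b := by
    intro i
    fin_cases i
    · exact hmb.ge
    · change 0 ≤ k1 b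
      omega
    · exact e2.ge
  have nS : ∀ i, 0 ≤ (![m, k1, k2] : Fin 3 → L →+ ℤ) i S := by
    intro i
    fin_cases i
    · exact hmS.ge
    · exact e3.ge
    · change 0 ≤ k2 S
      omega
  have nS3 : ∀ a ∈ supp (single S (y : RO O) * F3), ∀ i,
      0 ≤ (![m, k1, k2] : Fin 3 → L →+ ℤ) i a := by
    intro a ha i
    obtain ⟨a1, h4, a2, h5, rfl⟩ := supp_mul' _ _ a ha
    have h6 : a1 = S := by
      by_contra h7
      apply h4
      rw [coeff_single, Finsupp.single_eq_of_ne h7]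
    rw [h6, map_add]
    exact add_nonneg (nS i) (nn h3 m3 a2 h5 i)
  rw [four, map_add, map_add, map_add, mv_single_mul z u _ _ b x F1 nb (nn h1 m1),
    mv_single_mul z u _ _ S y F2 nS (nn h2 m2), mul_assoc (single b (x : RO O)),
    mv_single_mul z u _ _ b x _ nb nS3, mv_single_mul z u _ _ S y F3 nS (nn h3 m3)]
  have p1 : ∏ i, (![s, t1, t2] : Fin 3 → ℂ) i ^ ((![m, k1, k2] : Fin 3 → L →+ ℤ) i b).toNat =
      t1 := by
    rw [Fin.prod_univ_three]
    simp [e1, e2, hmb]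
  have p2 : ∏ i, (![s, t1, t2] : Fin 3 → ℂ) i ^ ((![m, k1, k2] : Fin 3 → L →+ ℤ) i S).toNat =
      t2 := by
    rw [Fin.prod_univ_three]
    simp [e3, e4, hmS]
  rw [p1, p2]
  ring

theorem sl_mv (z : Circle) (u : AddChar L Circle) (m : L →+ ℤ) (F : AO O L)
    (hF : ∀ a ∈ supp F, 0 ≤ m a ∧ 0 ≤ k1 a ∧ 0 ≤ k2 a) (s : ℂ) :
    (sl u (m + k1 + k2) (spec z F)).eval s = mv z u ![m, k1, k2] ![s, s, s] F := by
  let f : AO O L →+ ℂ :=
    { toFun := fun F => (sl u (m + k1 + k2) (spec z F)).eval s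
      map_zero' := by rw [map_zero, Pool.Agent.B5.H83.sl_zero, Polynomial.eval_zero]
      map_add' := fun F G => by rw [map_add, Pool.Agent.B5.H83.sl_add, Polynomial.eval_add] }
  refine eq_of_single f _ F (fun a ha => ?_)
  change (sl u (m + k1 + k2) (spec z (single a (F.coeff a)))).eval s = _
  rw [mv_single, Pool.Agent.B5.H83.spec_single, Pool.Agent.B5.H83.sl_single,
    Polynomial.eval_monomial, Fin.prod_univ_three]
  obtain ⟨h1, h2, h3⟩ := hF a ha
  have h4 : ((m + k1 + k2) a).toNat = (m a).toNat + (k1 a).toNat + (k2 a).toNat := by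
    change (m a + k1 a + k2 a).toNat = _
    omega
  rw [h4, pow_add, pow_add]
  simp only [Matrix.cons_val_zero, Matrix.cons_val_one, Matrix.cons_val_two, Matrix.head_cons,
    Matrix.tail_cons, Matrix.cons_val]

end Pool.Agent.B5.H96
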